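import Mathlib

open Function

namespace Pool.Agent.R654.SharpCore

/-!
Definitions for the core theorem on sharp actions (helper654).  The theorem itself is in
`Pool.Agent.R654.SharpCore`; the instantiations prove `Good S` for concrete `S`.
-/

/-- `tup a b` is the relation `a m ↦ b m`. -/
def tup {U : Type} {k : ℕ} (a b : Fin k → U) : Set (U × U) := {p | ∃ m, p = (a m, b m)}

/-- A notion of compatibility with the structure for relations (graphs of partial maps) on `U`,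
together with the target groups `T c` (permutations of the index set `Fin k` of the tuple `c`). -/
structure Setup (U : Type) (k : ℕ) where
  P : Set (U × U) → Prop
  mono : ∀ r s, r ⊆ s → P s → P r
  symm : ∀ r, P r → P {p | (p.2, p.1) ∈ r}
  comp : ∀ r s, P r → P s → P {p | ∃ y, (p.1, y) ∈ r ∧ (y, p.2) ∈ s}
  refl : P {p | p.1 = p.2}
  fin : ∀ r, (∀ s ⊆ r, s.Finite → P s) → P r
  T : (Fin k → U) → Subgroup (Equiv.Perm (Fin k))
  T_sub : ∀ c, Injective c → ∀ σ ∈ T c, P (tup c (c ∘ σ))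
  T_inv : ∀ b c, Injective b → Injective c → P (tup b c) → T b = T c

variable {U : Type} {k : ℕ}

/-- a finite partial action of the group `T c` by partial automorphisms, which is the natural action
on the tuple `c` and free elsewhere -/
structure PAct (S : Setup U k) where
  c : Fin k → U
  inj : Injective c
  D : Finset U
  act : Equiv.Perm (Fin k) → U → U
  c_mem : ∀ m, c m ∈ D
  map_mem : ∀ γ ∈ S.T c, ∀ x ∈ D, act γ x ∈ D
  one : ∀ x ∈ D, act 1 x = x
  mul : ∀ γ ∈ S.T c, ∀ δ ∈ S.T c, ∀ x ∈ D, act (γ * δ) x = act γ (act δ x)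
  on_c : ∀ γ ∈ S.T c, ∀ m, act γ (c m) = c (γ m)
  free : ∀ γ ∈ S.T c, γ ≠ 1 → ∀ x ∈ D, act γ x = x → x ∈ Set.range c
  pres : ∀ γ ∈ S.T c, S.P {p | p.1 ∈ D ∧ p.2 = act γ p.1}

/-- `B` extends `A` by the free orbit of `y` -/
structure Ext (S : Setup U k) (A B : PAct S) (y : U) : Prop where
  c_eq : B.c = A.c
  act_eq : ∀ γ ∈ S.T A.c, ∀ x ∈ A.D, B.act γ x = A.act γ x
  D_eq : ∀ x, x ∈ B.D ↔ x ∈ A.D ∨ ∃ γ ∈ S.T A.c, x = B.act γ y
  new : ∀ γ ∈ S.T A.c, B.act γ y ∉ A.D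
  free : ∀ γ ∈ S.T A.c, ∀ δ ∈ S.T A.c, B.act γ y = B.act δ y → γ = δ

/-- The hypotheses of the core theorem. -/
structure Good (S : Setup U k) : Prop where
  /-- elements of prime order `r` of a target group fix fewer than `r` indices -/
  prime : ∀ c, Injective c → ∀ γ ∈ S.T c, (orderOf γ).Prime →
    Nat.card {m : Fin k // γ m = m} < orderOf γ
  /-- fresh copies of `k`-tuples -/
  fresh : ∀ b : Fin k → U, Injective b → ∀ F : Finset U, ∃ c : Fin k → U, Injective c ∧ S.P (tup b c) ∧ ∀ m, c m ∉ F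
  /-- a subgroup `H` of a target group which stabilises a `k`-set `range b` acts on it as a subgroup
  of the target group of any tuple of the type of `b` -/
  twist : ∀ (A : PAct S) (H : Subgroup (Equiv.Perm (Fin k))), H ≤ S.T A.c →
    ∀ b : Fin k → U, Injective b → (∀ m, b m ∈ A.D) → (∀ h ∈ H, ∀ m, A.act h (b m) ∈ Set.range b) →
    ∀ c : Fin k → U, Injective c → (∃ ρ : Equiv.Perm (Fin k), S.P (tup c (b ∘ ρ))) →
    ∃ ρ : Equiv.Perm (Fin k), S.P (tup c (b ∘ ρ)) ∧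
      ∀ h ∈ H, ∃ σ ∈ S.T c, ∀ m, A.act h (b (ρ m)) = b (ρ (σ m))
  /-- extension of a partial action to a given point -/
  ext1 : ∀ (A : PAct S) (x : U), x ∉ A.D → ∀ F : Finset U,
    ∃ B : PAct S, Ext S A B x ∧ B.act 1 x = x ∧ ∀ γ ∈ S.T A.c, γ ≠ 1 → B.act γ x ∉ F
  /-- extension of an equivariant partial isomorphism `τ` to a free orbit -/
  ext2 : ∀ (A B : PAct S) (H : Subgroup (Equiv.Perm (Fin k))) (φ : H →* Equiv.Perm (Fin k)),
    H ≤ S.T A.c → (∀ h, φ h ∈ S.T B.c) → Injective φ →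
    ∀ (R : Finset U) (τ : U → U), R.Nonempty → R ⊆ A.D → (∀ z ∈ R, τ z ∈ B.D) → Set.InjOn τ R →
    (∀ h : H, ∀ z ∈ R, A.act h z ∈ R ∧ τ (A.act h z) = B.act (φ h) (τ z)) →
    S.P {p | p.1 ∈ R ∧ p.2 = τ p.1} →
    ∀ x ∈ A.D, x ∉ R → (∀ h : H, A.act h x = x → h = 1) →
    ∀ F : Finset U, ∃ (B' : PAct S) (y : U), Ext S B B' y ∧ B'.act 1 y = y ∧
      (∀ γ ∈ S.T B.c, B'.act γ y ∉ F) ∧
      S.P {p | (p.1 ∈ R ∧ p.2 = τ p.1) ∨ ∃ h : H, p = (A.act h x, B'.act (φ h) y)}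

end Pool.Agent.R654.SharpCore
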