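import Pool.Agent.R654.SharpCore5

/-!
# Core theorem on sharp actions: the limit (helper891)
-/

set_option autoImplicit false

open Function

namespace Pool.Agent.R654.SharpCore

variable {U : Type} {k : ℕ} {S : Setup U k}

/-! ### Tasks -/

/-- the tasks -/
abbrev Task (U : Type) (k : ℕ) : Type := (Fin k → U) ⊕ ((ℕ × U) ⊕ ((ℕ × Bool) × U))

/-- the task is accomplished -/
def Done (X : Sys S) : Task U k → Prop
  | .inl b => Injective b → ∃ j < X.m, ∃ (w : List (Letter k)) (σ : Equiv.Perm (Fin k)),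
      Path X w (X.A j).c (b ∘ σ)
  | .inr (.inl (j, x)) => j < X.m → x ∈ (X.A j).D
  | .inr (.inr (l, x)) => l.1 < X.n → ∃ y, X.E l x y

theorem manyE1 (hk : 0 < k) (hS : Good S) (X : Sys S) (hI : Inv X) {j : ℕ} (hj : j < X.m)
    (F : Finset U) : ∃ Y : Sys S, Inv Y ∧ Le X Y ∧ F ⊆ (Y.A j).D := by
  classical
  induction F using Finset.induction_on with
  | empty => exact ⟨X, hI, Le.refl X, by simp⟩
  | insert x F _ ih =>
    obtain ⟨Y, hY, hXY, hF⟩ := ih
    obtain ⟨Z, hZ, hYZ, hx⟩ := stepE1 hk hS Y hY (hj.trans_le hXY.m_le) x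
    refine ⟨Z, hZ, hXY.trans hYZ, Finset.insert_subset hx (hF.trans ?_)⟩
    exact hYZ.D_sub j (hj.trans_le hXY.m_le)

theorem step (hk : 0 < k) (hS : Good S) (X : Sys S) (hI : Inv X) (T : Task U k) :
    ∃ Y : Sys S, Inv Y ∧ Le X Y ∧ Done Y T := by
  classical
  rcases T with b | ⟨j, x⟩ | ⟨l, x⟩
  · by_cases hb : Injective b
    · obtain ⟨Y, hY, hXY, j, hj, ρ, hρ⟩ := stepA hk hS X hI hb
      obtain ⟨Z, hZ, hYZ, hF⟩ := manyE1 hk hS Y hY hj (Finset.univ.image b)
      have hj' := hj.trans_le hYZ.m_le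
      obtain ⟨W, hW, hZW, w, σ, hp⟩ := stepN hk hS Z hZ hb
        ⟨j, hj', fun i => hF (Finset.mem_image_of_mem _ (Finset.mem_univ i))⟩ hj'
        ⟨ρ, by rw [hYZ.c_eq j hj]; exact hρ⟩
      exact ⟨W, hW, (hXY.trans hYZ).trans hZW, fun _ => ⟨j, hj'.trans_le hZW.m_le, w, σ, hp⟩⟩
    · exact ⟨X, hI, Le.refl X, fun h => absurd h hb⟩
  · by_cases hj : j < X.m
    · obtain ⟨Y, hY, hXY, hx⟩ := stepE1 hk hS X hI hj x
      exact ⟨Y, hY, hXY, fun _ => hx⟩
    · exact ⟨X, hI, Le.refl X, fun h => absurd h hj⟩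
  · by_cases hl : l.1 < X.n
    · obtain ⟨Y, hY, hXY, hx⟩ := stepE1 hk hS X hI (hI.val.src_lt l hl) x
      obtain ⟨Z, hZ, hYZ, v, hv⟩ := stepE2 hS Y hY (hl.trans_le hXY.n_le)
        (by rw [hXY.src_eq l hl]; exact hx)
      exact ⟨Z, hZ, hXY.trans hYZ, fun _ => ⟨v, hv⟩⟩
    · exact ⟨X, hI, Le.refl X, fun h => absurd h hl⟩

/-- the empty system -/
def emptySys (A : PAct S) : Sys S where
  m := 0
  A := fun _ => A
  n := 0
  src := fun _ => 0
  Φ := fun _ => ⊥
  E := fun _ _ _ => False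

theorem emptySys_inv (A : PAct S) : Inv (emptySys A) where
  val :=
    { src_lt := fun _ h => absurd h (Nat.not_lt_zero _)
      E_act := fun _ _ _ h => h.elim
      E_dom := fun _ _ _ h => h.elim
      E_sym := fun _ _ _ h => h
      E_fn := fun _ _ _ _ h => h.elim
      E_P := fun _ => S.mono _ _ (fun _ h => h.elim) S.P_empty
      E_ne := fun _ h => absurd h (Nat.not_lt_zero _)
      Φ_sym := fun _ h => absurd h (Nat.not_lt_zero _)
      Φ_mem := fun _ h => absurd h (Nat.not_lt_zero _)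
      Φ_inj := fun _ h => absurd h (Nat.not_lt_zero _)
      E_eqv := fun _ _ _ _ _ h => h.elim
      F := fun _ h => absurd h (Nat.not_lt_zero _)
      I4 := fun _ h => absurd h (Nat.not_lt_zero _) }
  I1 := fun _ h => absurd h (Nat.not_lt_zero _)
  I3 := fun _ _ h => absurd h.choose_spec.1 (Nat.not_lt_zero _)

/-- a chain of systems which accomplishes all tasks infinitely often -/
theorem exists_chain (hk : 0 < k) [Countable U] [Infinite U] (hS : Good S) :
    ∃ X : ℕ → Sys S, (∀ n, Inv (X n)) ∧ (∀ n n', n ≤ n' → Le (X n) (X n')) ∧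
      ∀ (T : Task U k) (N : ℕ), ∃ n, N ≤ n ∧ Done (X n) T := by
  obtain ⟨x0⟩ : Nonempty U := inferInstance
  have : Nonempty (Task U k) := ⟨.inr (.inl (0, x0))⟩
  obtain ⟨e, he⟩ := exists_surjective_nat (Task U k)
  let c0 : Fin k → U := fun i => Infinite.natEmbedding U i
  have hc0 : Injective c0 := fun i j h => Fin.ext ((Infinite.natEmbedding U).injective h)
  choose nx hnx1 hnx2 hnx3 using fun (X : {X : Sys S // Inv X}) (T : Task U k) =>
    step hk hS X.1 X.2 T
  let Y : ℕ → {X : Sys S // Inv X} := fun n =>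
    Nat.rec ⟨emptySys (basePAct S c0 hc0), emptySys_inv _⟩
      (fun n X => ⟨nx X (e (Nat.unpair n).1), hnx1 X _⟩) n
  have hY : ∀ n, (Y (n + 1)).1 = nx (Y n) (e (Nat.unpair n).1) := fun n => rfl
  refine ⟨fun n => (Y n).1, fun n => (Y n).2, ?_, ?_⟩
  · intro n n' hn
    induction hn with
    | refl => exact Le.refl _
    | step _ ih =>
      refine ih.trans ?_
      change Le _ (Y (_ + 1)).1
      rw [hY]
      exact hnx2 _ _
  · intro T N
    obtain ⟨i, rfl⟩ := he T
    refine ⟨Nat.pair i N + 1, (Nat.right_le_pair i N).trans (Nat.le_succ _), ?_⟩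
    change Done (Y (_ + 1)).1 _
    rw [hY, Nat.unpair_pair]
    exact hnx3 _ _

/-! ### The limit -/

section Limit

variable {X : ℕ → Sys S}

/-- the limit relation -/
def Q (X : ℕ → Sys S) (l : Letter k) (x y : U) : Prop := ∃ n, Rel (X n) l x y

/-- active letters -/
def Active (X : ℕ → Sys S) : Letter k → Prop
  | .inl (j, γ) => ∃ n, j < (X n).m ∧ γ ∈ S.T ((X n).A j).c
  | .inr l => ∃ n, l.1 < (X n).n

theorem active_lv {l : Letter k} (h : Active X l) : Active X (lv l) := by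
  rcases l with ⟨j, γ⟩ | l
  · obtain ⟨n, h1, h2⟩ := h
    exact ⟨n, h1, inv_mem h2⟩
  · exact h

theorem lv_lv (l : Letter k) : lv (lv l) = l := by
  rcases l with ⟨j, γ⟩ | l <;> simp [lv]

variable (hI : ∀ n, Inv (X n)) (hle : ∀ n n', n ≤ n' → Le (X n) (X n'))
  (hdone : ∀ (T : Task U k) (N : ℕ), ∃ n, N ≤ n ∧ Done (X n) T)

include hI in
theorem Q_inv {l : Letter k} {x y : U} (h : Q X l x y) : Q X (lv l) y x := by
  obtain ⟨n, hn⟩ := h
  exact ⟨n, rel_inv (hI n).val hn⟩

include hI hle in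
theorem Q_fn {l : Letter k} {x y y' : U} (h : Q X l x y) (h' : Q X l x y') : y = y' := by
  obtain ⟨n, hn⟩ := h
  obtain ⟨n', hn'⟩ := h'
  exact rel_fn (hI (max n n')).val ((hle _ _ (le_max_left _ _)).rel hn)
    ((hle _ _ (le_max_right _ _)).rel hn')

include hI in
theorem Q_active {l : Letter k} {x y : U} (h : Q X l x y) : Active X l := by
  obtain ⟨n, hn⟩ := h
  rcases l with ⟨j, γ⟩ | l
  · exact ⟨n, hn.1, hn.2.1⟩
  · exact ⟨n, (hI n).val.E_act _ _ _ hn⟩

include hle hdone in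
theorem Q_tot {l : Letter k} (h : Active X l) (x : U) : ∃ y, Q X l x y := by
  rcases l with ⟨j, γ⟩ | l
  · obtain ⟨n, h1, h2⟩ := h
    obtain ⟨n', hn', hd⟩ := hdone (.inr (.inl (j, x))) n
    have hL := hle n n' hn'
    have hj := h1.trans_le hL.m_le
    exact ⟨_, n', hj, by rw [hL.c_eq j h1]; exact h2, hd hj, rfl⟩
  · obtain ⟨n, h1⟩ := h
    obtain ⟨n', hn', hd⟩ := hdone (.inr (.inr (l, x))) n
    obtain ⟨y, hy⟩ := hd (h1.trans_le (hle n n' hn').n_le)
    exact ⟨y, n', hy⟩

/-- the permutation of a letter -/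
theorem exists_perms (hI : ∀ n, Inv (X n)) (hle : ∀ n n', n ≤ n' → Le (X n) (X n'))
    (hdone : ∀ (T : Task U k) (N : ℕ), ∃ n, N ≤ n ∧ Done (X n) T) :
    ∃ f : Letter k → Equiv.Perm U, (∀ l, Active X l → ∀ x, Q X l x (f l x)) ∧
      ∀ l, ¬ Active X l → f l = 1 := by
  classical
  have h1 : ∀ l : Letter k, ∃ g : Equiv.Perm U, (Active X l → ∀ x, Q X l x (g x)) ∧
      (¬ Active X l → g = 1) := by
    intro l
    by_cases hl : Active X l
    · choose F hF using Q_tot (l := l) hle hdone hl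
      choose F' hF' using Q_tot (l := lv l) hle hdone (active_lv hl)
      refine ⟨⟨F, F', fun x => ?_, fun x => ?_⟩, fun _ => hF, fun h => absurd hl h⟩
      · exact Q_fn hI hle (hF' (F x)) (Q_inv hI (hF x))
      · refine Q_fn hI hle (hF (F' x)) ?_
        have := Q_inv hI (hF' x)
        rwa [lv_lv] at this
    · exact ⟨1, fun h => absurd h hl, fun _ => rfl⟩
  choose f hf1 hf2 using h1
  exact ⟨f, hf1, hf2⟩

variable {f : Letter k → Equiv.Perm U} (hf : ∀ l, Active X l → ∀ x, Q X l x (f l x))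
  (hf' : ∀ l, ¬ Active X l → f l = 1)

include hI hle hf in
theorem f_eq {l : Letter k} {x y : U} (h : Q X l x y) : f l x = y :=
  Q_fn hI hle (hf l (Q_active hI h) x) h

include hI hle hf in
theorem f_eq' {n : ℕ} {l : Letter k} {x y : U} (h : Rel (X n) l x y) : f l x = y :=
  f_eq hI hle hf ⟨n, h⟩

include hI hle hf hf' in
theorem f_lv (l : Letter k) : f (lv l) = (f l)⁻¹ := by
  by_cases hl : Active X l
  · ext1 x
    rw [Equiv.Perm.eq_inv_iff_eq]
    refine f_eq hI hle hf ?_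
    have := Q_inv hI (hf (lv l) (active_lv hl) x)
    rwa [lv_lv] at this
  · have hl' : ¬ Active X (lv l) := fun h => hl (by
      have := active_lv h
      rwa [lv_lv] at this)
    rw [hf' l hl, hf' _ hl', inv_one]

include hI hle hdone hf hf' in
theorem f_resp (n : ℕ) : Resp (X n) f where
  mul j hj γ hγ δ hδ := by
    ext1 x
    obtain ⟨n', hn', hd⟩ := hdone (.inr (.inl (j, x))) n
    have hL := hle n n' hn'
    have hj' := hj.trans_le hL.m_le
    have hx : x ∈ ((X n').A j).D := hd hj'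
    have hγ' : γ ∈ S.T ((X n').A j).c := by rw [hL.c_eq j hj]; exact hγ
    have hδ' : δ ∈ S.T ((X n').A j).c := by rw [hL.c_eq j hj]; exact hδ
    have h1 : f (.inl (j, δ)) x = ((X n').A j).act δ x :=
      f_eq' hI hle hf (n := n') ⟨hj', hδ', hx, rfl⟩
    have h2 : f (.inl (j, γ)) (((X n').A j).act δ x) = ((X n').A j).act γ (((X n').A j).act δ x) :=
      f_eq' hI hle hf (n := n') ⟨hj', hγ', PAct.map_mem _ _ hδ' _ hx, rfl⟩
    have h3 : f (.inl (j, γ * δ)) x = ((X n').A j).act (γ * δ) x :=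
      f_eq' hI hle hf (n := n') ⟨hj', mul_mem hγ' hδ', hx, rfl⟩
    rw [Equiv.Perm.mul_apply, h1, h2, h3, PAct.mul _ _ hγ' _ hδ' _ hx]
  iv l := f_lv hI hle hf hf' (.inr l)
  rel l hl h h' hh := by
    ext1 x
    obtain ⟨n', hn', hd⟩ := hdone (.inr (.inr (l, x))) n
    have hL := hle n n' hn'
    have hl' := hl.trans_le hL.n_le
    obtain ⟨y, hy⟩ := hd hl'
    have hV := (hI n').val
    have hh' : (h, h') ∈ (X n').Φ l := by rw [hL.Φ_eq l hl]; exact hh
    have hs : (X n').src l = (X n).src l := hL.src_eq l hl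
    have hs' : (X n').src (iv l) = (X n).src (iv l) := hL.src_eq (iv l) hl
    rw [← hs, ← hs']
    have e0 := hV.E_eqv l x y h h' hy hh'
    have e1 : f (.inl ((X n').src l, h)) x = _ := f_eq' hI hle hf (n := n')
      ⟨hV.src_lt l hl', hV.Φ_mem l hl' _ _ hh', hV.E_dom _ _ _ hy, rfl⟩
    have e2 : f (.inr l) x = y := f_eq' hI hle hf (n := n') hy
    have e3 : f (.inl ((X n').src (iv l), h')) y = _ := f_eq' hI hle hf (n := n')
      ⟨hV.src_lt (iv l) hl', Φ_mem' hV hl' hh', E_dom' hV hy, rfl⟩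
    have e4 : f (.inr l) (((X n').A ((X n').src l)).act h x) = _ :=
      f_eq' hI hle hf (n := n') e0
    rw [Equiv.Perm.mul_apply, Equiv.Perm.mul_apply, e1, e2, e3, e4]

include hI hle hf in
theorem ev_path {n : ℕ} {w : List (Letter k)} {a b : Fin k → U} (h : Path (X n) w a b)
    (i : Fin k) : ev f w (a i) = b i := by
  induction w generalizing b with
  | nil =>
    rw [ev_nil, ← show a = b from h]
    rfl
  | cons l w ih =>
    obtain ⟨b', h1, h2⟩ := h
    rw [ev_cons, Equiv.Perm.mul_apply, ih h1]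
    exact f_eq' hI hle hf (h2 i)

include hle hf in
theorem path_ev {w : List (Letter k)} (hw : ∀ l ∈ w, Active X l) (a : Fin k → U) :
    ∃ n, Path (X n) w a (fun i => ev f w (a i)) := by
  induction w with
  | nil => exact ⟨0, rfl⟩
  | cons l w ih =>
    obtain ⟨n, hn⟩ := ih fun l' hl' => hw l' (List.mem_cons_of_mem _ hl')
    have h1 : ∀ i, Q X l (ev f w (a i)) (f l (ev f w (a i))) := fun i =>
      hf l (hw l (by simp)) _
    choose N hN using h1
    refine ⟨max n (Finset.univ.sup N), _, (hle _ _ (le_max_left _ _)).path hn, fun i => ?_⟩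
    simp only [ev_cons, Equiv.Perm.mul_apply]
    exact (hle _ _ ((Finset.le_sup (Finset.mem_univ i)).trans (le_max_right _ _))).rel (hN i)

include hI hle hf hf' in
theorem exists_word {g : Equiv.Perm U} (hg : g ∈ Subgroup.closure (Set.range f)) :
    ∃ w : List (Letter k), (∀ l ∈ w, Active X l) ∧ ev f w = g := by
  induction hg using Subgroup.closure_induction with
  | mem g hg =>
    obtain ⟨l, rfl⟩ := hg
    by_cases hl : Active X l
    · exact ⟨[l], by simpa using hl, by simp⟩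
    · exact ⟨[], by simp, by rw [hf' l hl]; rfl⟩
  | one => exact ⟨[], by simp, rfl⟩
  | mul g h _ _ ihg ihh =>
    obtain ⟨w, hw, rfl⟩ := ihg
    obtain ⟨w', hw', rfl⟩ := ihh
    refine ⟨w ++ w', fun l hl => ?_, ev_append _ _ _⟩
    rcases List.mem_append.1 hl with h | h
    · exact hw l h
    · exact hw' l h
  | inv g hg' ih =>
    obtain ⟨w, hw, rfl⟩ := ih
    refine ⟨(w.map lv).reverse, ?_, ?_⟩
    · intro l hl
      rw [List.mem_reverse, List.mem_map] at hl
      obtain ⟨l', hl', rfl⟩ := hl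
      exact active_lv (hw l' hl')
    · clear hw hg'
      induction w with
      | nil => simp
      | cons l w ih =>
        rw [List.map_cons, List.reverse_cons, ev_append, ih, ev_cons, ev_cons, ev_nil, mul_one,
          f_lv hI hle hf hf', mul_inv_rev]

include hI hle hf in
theorem P_f (hf' : ∀ l, ¬ Active X l → f l = 1) (l : Letter k) :
    S.P {p : U × U | p.2 = f l p.1} := by
  by_cases hl : Active X l
  · refine S.fin _ fun s hs hfin => ?_
    have h1 : ∀ p ∈ s, Q X l p.1 p.2 := by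
      intro p hp
      have h2 : p.2 = f l p.1 := hs hp
      rw [h2]
      exact hf l hl _
    have h2 : ∃ n, ∀ p ∈ s, Rel (X n) l p.1 p.2 := by
      choose! N hN using h1
      refine ⟨hfin.toFinset.sup N, fun p hp => ?_⟩
      exact (hle _ _ (Finset.le_sup (hfin.mem_toFinset.2 hp))).rel (hN p hp)
    obtain ⟨n, hn⟩ := h2
    exact S.mono _ _ hn (rel_P (hI n).val l)
  · rw [hf' l hl]
    refine S.mono _ _ ?_ S.refl
    intro p hp
    exact (show p.2 = p.1 from hp).symm

end Limit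

theorem core (hk : 0 < k) [Countable U] [Infinite U] (S : Setup U k) (hS : Good S) :
    ∃ G : Subgroup (Equiv.Perm U),
      (∀ g ∈ G, S.P {p | p.2 = g p.1}) ∧
      (∀ a b : Fin k → U, Injective a → Injective b → S.P (tup a b) →
        ∃ g ∈ G, ∃ σ : Equiv.Perm (Fin k), ∀ m, g (a m) = b (σ m)) ∧
      (∀ a : Fin k → U, Injective a → ∃ (ρ : Equiv.Perm (Fin k)) (c : Fin k → U),
        Injective c ∧ S.P (tup (a ∘ ρ) c) ∧
        ∀ σ : Equiv.Perm (Fin k), σ ∈ S.T c ↔ ∃ g ∈ G, ∀ m, g (c m) = c (σ m)) ∧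
      (∀ g ∈ G, ∀ a : Fin k → U, Injective a → (∀ m, g (a m) = a m) → g = 1) := by
  obtain ⟨X, hI, hle, hdone⟩ := exists_chain hk hS
  obtain ⟨f, hf, hf'⟩ := exists_perms hI hle hdone
  have hres := f_resp hI hle hdone hf hf'
  have hfG : ∀ l, f l ∈ Subgroup.closure (Set.range f) := fun l =>
    Subgroup.subset_closure ⟨l, rfl⟩
  have hevG : ∀ w, ev f w ∈ Subgroup.closure (Set.range f) := by
    intro w
    induction w with
    | nil => exact one_mem _
    | cons l w ih => rw [ev_cons]; exact mul_mem (hfG l) ih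
  have hconn : ∀ b : Fin k → U, Injective b → ∃ n, ∃ j < (X n).m,
      ∃ (w : List (Letter k)) (σ : Equiv.Perm (Fin k)), Path (X n) w ((X n).A j).c (b ∘ σ) := by
    intro b hb
    obtain ⟨n, -, hd⟩ := hdone (.inl b) 0
    exact ⟨n, hd hb⟩
  -- elements of `G` which permute a representative
  have hrep : ∀ g ∈ Subgroup.closure (Set.range f), ∀ n, ∀ j < (X n).m,
      ∀ σ : Equiv.Perm (Fin k), (∀ m, g (((X n).A j).c m) = ((X n).A j).c (σ m)) →
        σ ∈ S.T ((X n).A j).c ∧ g = f (.inl (j, σ)) := by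
    intro g hg n j hj σ hσ
    obtain ⟨w, hw, rfl⟩ := exists_word hI hle hf hf' hg
    obtain ⟨n', hn'⟩ := path_ev hle hf hw ((X n).A j).c
    have hL := hle n (max n n') (le_max_left _ _)
    have hp := (hle n' (max n n') (le_max_right _ _)).path hn'
    have hc : ((X (max n n')).A j).c = ((X n).A j).c := hL.c_eq j hj
    obtain ⟨-, -, h3⟩ := (hI (max n n')).I1 j (hj.trans_le hL.m_le)
    rw [hc] at h3
    obtain ⟨γ, hγ, hs, he⟩ := h3 w _ hp (by
      rw [show (fun i => ev f w (((X n).A j).c i)) = ((X n).A j).c ∘ σ from funext hσ,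
        range_comp_perm])
    have hγσ : σ = γ := by
      ext1 m
      apply ((X n).A j).inj
      have e1 := congrFun he m
      rw [← hσ, e1, ← hc]
      exact PAct.on_c _ γ (by rw [hc]; exact hγ) m
    subst hγσ
    refine ⟨hγ, ?_⟩
    have := hs (Equiv.Perm U) f (hres _)
    rw [this]
    simp
  refine ⟨Subgroup.closure (Set.range f), ?_, ?_, ?_, ?_⟩
  · intro g hg
    induction hg using Subgroup.closure_induction with
    | mem g hg =>
      obtain ⟨l, rfl⟩ := hg
      exact P_f hI hle hf hf' l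
    | one =>
      refine S.mono _ _ ?_ S.refl
      intro p hp
      exact (show p.2 = p.1 from hp).symm
    | mul g h _ _ ihg ihh =>
      refine S.mono _ _ ?_ (S.comp _ _ ihh ihg)
      intro p hp
      exact ⟨h p.1, rfl, hp⟩
    | inv g _ ih =>
      refine S.mono _ _ ?_ (S.symm _ ih)
      intro p hp
      have hp' : p.2 = g⁻¹ p.1 := hp
      change p.1 = g p.2
      rw [hp']
      simp
  · intro a b ha hb hP
    obtain ⟨n, j, hj, w, σ, hp⟩ := hconn a ha
    obtain ⟨n', j', hj', w', σ', hp'⟩ := hconn b hb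
    set N := max n n' with hN
    have hL := hle n N (le_max_left _ _)
    have hL' := hle n' N (le_max_right _ _)
    have hpN := hL.path hp
    have hpN' := hL'.path hp'
    rw [← hL.c_eq j hj] at hpN
    rw [← hL'.c_eq j' hj'] at hpN'
    have hV := (hI N).val
    have hjj : j = j' := by
      by_contra hne
      -- compare the types
      have h1 := path_P hV hpN
      have h2 := path_P hV hpN'
      have h3 : S.P (tup ((X N).A j).c (b ∘ σ)) := S.tup_trans h1 (S.tup_reindex hP σ)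
      have h4 : S.P (tup (b ∘ σ) (((X N).A j').c ∘ (σ * σ'⁻¹ : Equiv.Perm (Fin k)) )) → False := by
        intro h
        exact hV.I4 j (hj.trans_le hL.m_le) j' (hj'.trans_le hL'.m_le) hne _ (S.tup_trans h3 h)
      have h5 := S.tup_reindex (S.tup_symm h2) (σ'⁻¹ * σ : Equiv.Perm (Fin k))
      have h6 : (b ∘ σ') ∘ (σ'⁻¹ * σ : Equiv.Perm (Fin k)) = b ∘ σ := by
        funext i; simp
      rw [h6] at h5
      exact hV.I4 j (hj.trans_le hL.m_le) j' (hj'.trans_le hL'.m_le) hne _ (S.tup_trans h3 h5)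
    subst hjj
    refine ⟨ev f w' * (ev f w)⁻¹, mul_mem (hevG _) (inv_mem (hevG _)), σ' * σ⁻¹, fun m => ?_⟩
    have h1 := ev_path hI hle hf hpN (σ⁻¹ m)
    have h2 := ev_path hI hle hf hpN' (σ⁻¹ m)
    have h3 : (a ∘ σ) (σ⁻¹ m) = a m := by simp
    rw [h3] at h1
    have h4 : ∀ z, (ev f w)⁻¹ ((ev f w) z) = z := fun z => by simp
    rw [Equiv.Perm.mul_apply, ← h1, h4, h2]
    rfl
  · intro a ha
    obtain ⟨n, j, hj, w, σ, hp⟩ := hconn a ha
    refine ⟨σ, ((X n).A j).c, ((X n).A j).inj, S.tup_symm (path_P (hI n).val hp), fun ρ => ?_⟩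
    constructor
    · intro hρ
      refine ⟨f (.inl (j, ρ)), hfG _, fun m => ?_⟩
      rw [← ((X n).A j).on_c ρ hρ m]
      exact f_eq' hI hle hf (n := n) ⟨hj, hρ, PAct.c_mem _ m, rfl⟩
    · rintro ⟨g, hg, h⟩
      exact (hrep g hg n j hj ρ h).1
  · intro g hg a ha hfix
    obtain ⟨n, j, hj, w, σ, hp⟩ := hconn a ha
    have h1 : ∀ m, ((ev f w)⁻¹ * g * ev f w) (((X n).A j).c m) = ((X n).A j).c m := by
      intro m
      rw [Equiv.Perm.mul_apply, Equiv.Perm.mul_apply, ev_path hI hle hf hp m]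
      change (ev f w)⁻¹ (g (a (σ m))) = _
      rw [hfix, Equiv.Perm.inv_eq_iff_eq]
      exact (ev_path hI hle hf hp m).symm
    obtain ⟨-, h2⟩ := hrep _ (mul_mem (mul_mem (inv_mem (hevG w)) hg) (hevG w)) n j hj 1 h1
    rw [(hres n).one hj] at h2
    have h3 : g = ev f w * ((ev f w)⁻¹ * g * ev f w) * (ev f w)⁻¹ := by group
    rw [h3, h2]
    simp

end Pool.Agent.R654.SharpCore
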