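import Pool.Agent.R654.SharpDefs

/-!
# Core theorem on sharp actions, first part: systems, words, paths (helper891)
-/

set_option autoImplicit false

open Function

namespace Pool.Agent.R654.SharpCore

variable {U : Type} {k : ℕ}

/-! ### Letters and words -/

/-- the inverse of an oriented stable letter -/
def iv (l : ℕ × Bool) : ℕ × Bool := (l.1, !l.2)

@[simp] theorem iv_iv (l : ℕ × Bool) : iv (iv l) = l := by simp [iv]

@[simp] theorem iv_fst (l : ℕ × Bool) : (iv l).1 = l.1 := rfl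

theorem iv_ne (l : ℕ × Bool) : iv l ≠ l := by
  intro h
  have := congrArg Prod.snd h
  simp [iv] at this

theorem iv_ne' (l : ℕ × Bool) : l ≠ iv l := (iv_ne l).symm

/-- letters -/
abbrev Letter (k : ℕ) : Type := (ℕ × Equiv.Perm (Fin k)) ⊕ (ℕ × Bool)

/-- inverse letter -/
def lv : Letter k → Letter k
  | .inl (j, γ) => .inl (j, γ⁻¹)
  | .inr l => .inr (iv l)

/-- evaluation of a word -/
def ev {K : Type} [Group K] (f : Letter k → K) (w : List (Letter k)) : K := (w.map f).prod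

@[simp] theorem ev_nil {K : Type} [Group K] (f : Letter k → K) : ev f [] = 1 := rfl

@[simp] theorem ev_cons {K : Type} [Group K] (f : Letter k → K) (l : Letter k)
    (w : List (Letter k)) : ev f (l :: w) = f l * ev f w := by simp [ev]

@[simp] theorem ev_append {K : Type} [Group K] (f : Letter k → K)
    (w w' : List (Letter k)) : ev f (w ++ w') = ev f w * ev f w' := by simp [ev]

/-! ### Partial actions -/

section PAct

variable {S : Setup U k} (A : PAct S)

theorem PAct.inv_act {γ : Equiv.Perm (Fin k)} (hγ : γ ∈ S.T A.c) {x : U} (hx : x ∈ A.D) :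
    A.act γ⁻¹ (A.act γ x) = x := by
  rw [← A.mul _ (inv_mem hγ) _ hγ x hx, inv_mul_cancel, A.one x hx]

theorem PAct.act_inv {γ : Equiv.Perm (Fin k)} (hγ : γ ∈ S.T A.c) {x : U} (hx : x ∈ A.D) :
    A.act γ (A.act γ⁻¹ x) = x := by
  rw [← A.mul _ hγ _ (inv_mem hγ) x hx, mul_inv_cancel, A.one x hx]

theorem PAct.act_inj {γ : Equiv.Perm (Fin k)} (hγ : γ ∈ S.T A.c) {x y : U} (hx : x ∈ A.D)
    (hy : y ∈ A.D) (h : A.act γ x = A.act γ y) : x = y := by
  rw [← A.inv_act hγ hx, h, A.inv_act hγ hy]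

theorem PAct.eq_one {γ : Equiv.Perm (Fin k)} (hγ : γ ∈ S.T A.c)
    (h : ∀ m, A.act γ (A.c m) = A.c m) : γ = 1 := by
  ext m
  have h1 := h m
  rw [A.on_c γ hγ m] at h1
  rw [A.inj h1]
  rfl

end PAct

section Setup

variable (S : Setup U k)

theorem Setup.P_empty : S.P ∅ := S.mono _ _ (Set.empty_subset _) S.refl

theorem Setup.tup_reindex {a b : Fin k → U} (h : S.P (tup a b)) (σ : Fin k → Fin k) :
    S.P (tup (a ∘ σ) (b ∘ σ)) := by
  refine S.mono _ _ ?_ h
  rintro p ⟨m, rfl⟩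
  exact ⟨σ m, rfl⟩

theorem Setup.tup_symm {a b : Fin k → U} (h : S.P (tup a b)) : S.P (tup b a) := by
  refine S.mono _ _ ?_ (S.symm _ h)
  rintro p ⟨m, rfl⟩
  exact ⟨m, rfl⟩

theorem Setup.tup_trans {a b c : Fin k → U} (h : S.P (tup a b)) (h' : S.P (tup b c)) :
    S.P (tup a c) := by
  refine S.mono _ _ ?_ (S.comp _ _ h h')
  rintro p ⟨m, rfl⟩
  exact ⟨b m, ⟨m, rfl⟩, m, rfl⟩

end Setup

/-- two injective tuples with the same range differ by a permutation -/
theorem exists_perm {a b : Fin k → U} (ha : Injective a) (hb : Injective b)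
    (h : Set.range b = Set.range a) : ∃ σ : Equiv.Perm (Fin k), b = a ∘ σ := by
  have h1 : ∀ i, ∃ j, a j = b i := fun i => by
    have : b i ∈ Set.range a := h ▸ ⟨i, rfl⟩
    exact this
  choose s hs using h1
  have hinj : Injective s := by
    intro i j hij
    apply hb
    rw [← hs, ← hs, hij]
  exact ⟨Equiv.ofBijective s (Finite.injective_iff_bijective.1 hinj), funext fun i => (hs i).symm⟩

theorem range_comp_perm (a : Fin k → U) (σ : Equiv.Perm (Fin k)) :
    Set.range (a ∘ σ) = Set.range a := σ.surjective.range_comp a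

/-- an injective tuple with values in the range of an injective tuple -/
theorem exists_perm' {a b : Fin k → U} (ha : Injective a) (hb : Injective b)
    (h : ∀ i, b i ∈ Set.range a) : ∃ σ : Equiv.Perm (Fin k), b = a ∘ σ := by
  choose s hs using h
  have hinj : Injective s := by
    intro i j hij
    apply hb
    rw [← hs, ← hs, hij]
  exact ⟨Equiv.ofBijective s (Finite.injective_iff_bijective.1 hinj), funext fun i => (hs i).symm⟩

/-! ### Systems -/

/-- a system: partial actions `A j`, `j < m`, and stable letters `l` with `l.1 < n`, given with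
both orientations; `Φ l` is the graph of an isomorphism between subgroups and `E l` the graph
of a partial bijection -/
structure Sys (S : Setup U k) where
  m : ℕ
  A : ℕ → PAct S
  n : ℕ
  src : ℕ × Bool → ℕ
  Φ : ℕ × Bool → Subgroup (Equiv.Perm (Fin k) × Equiv.Perm (Fin k))
  E : ℕ × Bool → U → U → Prop

variable {S : Setup U k}

/-- the partial map of a letter -/
def Rel (X : Sys S) : Letter k → U → U → Prop
  | .inl (j, γ), x, y => j < X.m ∧ γ ∈ S.T (X.A j).c ∧ x ∈ (X.A j).D ∧ y = (X.A j).act γ x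
  | .inr l, x, y => X.E l x y

/-- paths of tuples; the last letter of the list is applied first -/
def Path (X : Sys S) : List (Letter k) → (Fin k → U) → (Fin k → U) → Prop
  | [], a, b => a = b
  | l :: w, a, b => ∃ b', Path X w a b' ∧ ∀ i, Rel X l (b' i) (b i)

/-- maps to a group which respect the relations of the system -/
structure Resp (X : Sys S) {K : Type} [Group K] (f : Letter k → K) : Prop where
  mul : ∀ j < X.m, ∀ γ ∈ S.T (X.A j).c, ∀ δ ∈ S.T (X.A j).c,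
    f (.inl (j, γ * δ)) = f (.inl (j, γ)) * f (.inl (j, δ))
  iv : ∀ l, f (.inr (iv l)) = (f (.inr l))⁻¹
  rel : ∀ l : ℕ × Bool, l.1 < X.n → ∀ h h', (h, h') ∈ X.Φ l →
    f (.inr l) * f (.inl (X.src l, h)) = f (.inl (X.src (SharpCore.iv l), h')) * f (.inr l)

/-- semantic equality -/
def Sem (X : Sys S) (w w' : List (Letter k)) : Prop :=
  ∀ (K : Type) [Group K] (f : Letter k → K), Resp X f → ev f w = ev f w'

/-- structural validity of a system -/
structure Val (X : Sys S) : Prop where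
  src_lt : ∀ l : ℕ × Bool, l.1 < X.n → X.src l < X.m
  E_act : ∀ l x y, X.E l x y → l.1 < X.n
  E_dom : ∀ l x y, X.E l x y → x ∈ (X.A (X.src l)).D
  E_sym : ∀ l x y, X.E l x y → X.E (iv l) y x
  E_fn : ∀ l x y y', X.E l x y → X.E l x y' → y = y'
  E_P : ∀ l, S.P {p | X.E l p.1 p.2}
  E_ne : ∀ l : ℕ × Bool, l.1 < X.n → ∃ x y, X.E l x y
  Φ_sym : ∀ l : ℕ × Bool, l.1 < X.n → ∀ h h', (h, h') ∈ X.Φ l → (h', h) ∈ X.Φ (iv l)
  Φ_mem : ∀ l : ℕ × Bool, l.1 < X.n → ∀ h h', (h, h') ∈ X.Φ l → h ∈ S.T (X.A (X.src l)).c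
  Φ_inj : ∀ l : ℕ × Bool, l.1 < X.n → ∀ h', (1, h') ∈ X.Φ l → h' = 1
  E_eqv : ∀ l x y h h', X.E l x y → (h, h') ∈ X.Φ l →
    X.E l ((X.A (X.src l)).act h x) ((X.A (X.src (iv l))).act h' y)
  F : ∀ l : ℕ × Bool, l.1 < X.n → ∀ h h', (h, h') ∈ X.Φ l → h ≠ 1 → ∀ z ∈ (X.A (X.src l)).D,
    (X.A (X.src l)).act h z = z → ∃ y, X.E l z y
  I4 : ∀ j < X.m, ∀ j' < X.m, j ≠ j' → ∀ ρ : Equiv.Perm (Fin k),
    ¬ S.P (tup (X.A j).c ((X.A j').c ∘ ρ))

/-- a tuple `b` is a root with index `j` -/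
def Root (X : Sys S) (b : Fin k → U) (j : ℕ) : Prop :=
  j < X.m ∧ (∀ i, b i ∈ (X.A j).D) ∧ ∀ w b', Path X w b b' → Set.range b' = Set.range b →
    ∃ γ ∈ S.T (X.A j).c, Sem X w [.inl (j, γ)] ∧ b' = fun i => (X.A j).act γ (b i)

/-- based tuples -/
def Based (X : Sys S) (b : Fin k → U) : Prop := ∃ j < X.m, ∀ i, b i ∈ (X.A j).D

/-- all invariants -/
structure Inv (X : Sys S) : Prop where
  val : Val X
  I1 : ∀ j < X.m, Root X (X.A j).c j
  I3 : ∀ b : Fin k → U, Injective b → Based X b →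
    ∃ w b0 j0, Path X w b b0 ∧ Root X b0 j0

/-- extension of systems -/
structure Le (X Y : Sys S) : Prop where
  m_le : X.m ≤ Y.m
  n_le : X.n ≤ Y.n
  c_eq : ∀ j < X.m, (Y.A j).c = (X.A j).c
  D_sub : ∀ j < X.m, (X.A j).D ⊆ (Y.A j).D
  act_eq : ∀ j < X.m, ∀ γ ∈ S.T (X.A j).c, ∀ x ∈ (X.A j).D, (Y.A j).act γ x = (X.A j).act γ x
  src_eq : ∀ l : ℕ × Bool, l.1 < X.n → Y.src l = X.src l
  Φ_eq : ∀ l : ℕ × Bool, l.1 < X.n → Y.Φ l = X.Φ l
  E_le : ∀ l x y, X.E l x y → Y.E l x y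

/-! ### Elementary properties -/

section Sem

variable {X : Sys S}

theorem Sem.refl (w : List (Letter k)) : Sem X w w := fun _ _ _ _ => rfl

theorem Sem.symm {w w' : List (Letter k)} (h : Sem X w w') : Sem X w' w :=
  fun K _ f hf => (h K f hf).symm

theorem Sem.trans {w w' w'' : List (Letter k)} (h : Sem X w w') (h' : Sem X w' w'') :
    Sem X w w'' := fun K _ f hf => (h K f hf).trans (h' K f hf)

theorem Sem.cons {w w' : List (Letter k)} (h : Sem X w w') (l : Letter k) :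
    Sem X (l :: w) (l :: w') := fun K _ f hf => by rw [ev_cons, ev_cons, h K f hf]

theorem Resp.one {K : Type} [Group K] {f : Letter k → K} (hf : Resp X f) {j : ℕ}
    (hj : j < X.m) : f (.inl (j, 1)) = 1 := by
  have := hf.mul j hj 1 (one_mem _) 1 (one_mem _)
  rw [mul_one] at this
  simpa using this

theorem Resp.inv {K : Type} [Group K] {f : Letter k → K} (hf : Resp X f) {j : ℕ}
    (hj : j < X.m) {γ : Equiv.Perm (Fin k)} (hγ : γ ∈ S.T (X.A j).c) :
    f (.inl (j, γ⁻¹)) = (f (.inl (j, γ)))⁻¹ := by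
  have := hf.mul j hj γ⁻¹ (inv_mem hγ) γ hγ
  rw [inv_mul_cancel, hf.one hj] at this
  exact eq_inv_of_mul_eq_one_left this.symm

theorem Sem.one {j : ℕ} (hj : j < X.m) (w : List (Letter k)) :
    Sem X (.inl (j, 1) :: w) w := fun K _ f hf => by rw [ev_cons, hf.one hj, one_mul]

theorem Sem.mul {j : ℕ} (hj : j < X.m) {γ δ : Equiv.Perm (Fin k)} (hγ : γ ∈ S.T (X.A j).c)
    (hδ : δ ∈ S.T (X.A j).c) (w : List (Letter k)) :
    Sem X (.inl (j, γ) :: .inl (j, δ) :: w) (.inl (j, γ * δ) :: w) := fun K _ f hf => by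
  simp only [ev_cons]
  rw [hf.mul j hj γ hγ δ hδ, mul_assoc]

end Sem

section Le

variable {X Y Z : Sys S}

theorem Le.refl (X : Sys S) : Le X X where
  m_le := le_rfl
  n_le := le_rfl
  c_eq _ _ := rfl
  D_sub _ _ := subset_rfl
  act_eq _ _ _ _ _ _ := rfl
  src_eq _ _ := rfl
  Φ_eq _ _ := rfl
  E_le _ _ _ h := h

theorem Le.trans (h : Le X Y) (h' : Le Y Z) : Le X Z where
  m_le := h.m_le.trans h'.m_le
  n_le := h.n_le.trans h'.n_le
  c_eq j hj := (h'.c_eq j (hj.trans_le h.m_le)).trans (h.c_eq j hj)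
  D_sub j hj := (h.D_sub j hj).trans (h'.D_sub j (hj.trans_le h.m_le))
  act_eq j hj γ hγ x hx := by
    rw [h'.act_eq j (hj.trans_le h.m_le) γ (by rw [h.c_eq j hj]; exact hγ) x (h.D_sub j hj hx),
      h.act_eq j hj γ hγ x hx]
  src_eq l hl := (h'.src_eq l (hl.trans_le h.n_le)).trans (h.src_eq l hl)
  Φ_eq l hl := (h'.Φ_eq l (hl.trans_le h.n_le)).trans (h.Φ_eq l hl)
  E_le l x y hxy := h'.E_le _ _ _ (h.E_le _ _ _ hxy)

theorem Le.rel (h : Le X Y) {l : Letter k} {x y : U} (hr : Rel X l x y) : Rel Y l x y := by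
  rcases l with ⟨j, γ⟩ | l
  · obtain ⟨h1, h2, h3, h4⟩ := hr
    exact ⟨h1.trans_le h.m_le, by rw [h.c_eq j h1]; exact h2, h.D_sub j h1 h3,
      by rw [h.act_eq j h1 γ h2 x h3]; exact h4⟩
  · exact h.E_le _ _ _ hr

theorem Le.path (h : Le X Y) {w : List (Letter k)} {a b : Fin k → U} (hp : Path X w a b) :
    Path Y w a b := by
  induction w generalizing b with
  | nil => exact hp
  | cons l w ih =>
    obtain ⟨b', h1, h2⟩ := hp
    exact ⟨b', ih h1, fun i => h.rel (h2 i)⟩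

theorem Le.resp (h : Le X Y) {K : Type} [Group K] {f : Letter k → K} (hf : Resp Y f) :
    Resp X f where
  mul j hj γ hγ δ hδ := hf.mul j (hj.trans_le h.m_le) γ (by rw [h.c_eq j hj]; exact hγ) δ
    (by rw [h.c_eq j hj]; exact hδ)
  iv := hf.iv
  rel l hl h1 h2 h12 := by
    rw [← h.src_eq l hl, ← h.src_eq (SharpCore.iv l) hl]
    exact hf.rel l (hl.trans_le h.n_le) h1 h2 (by rw [h.Φ_eq l hl]; exact h12)

theorem Le.sem (h : Le X Y) {w w' : List (Letter k)} (hs : Sem X w w') : Sem Y w w' :=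
  fun K _ f hf => hs K f (h.resp hf)

end Le

section Paths

variable {X : Sys S}

theorem path_append {w w' : List (Letter k)} {a c : Fin k → U} :
    Path X (w ++ w') a c ↔ ∃ b, Path X w' a b ∧ Path X w b c := by
  induction w generalizing c with
  | nil => simp [Path]
  | cons l w ih =>
    simp only [List.cons_append, Path]
    constructor
    · rintro ⟨b', h1, h2⟩
      obtain ⟨b, h3, h4⟩ := ih.1 h1
      exact ⟨b, h3, b', h4, h2⟩
    · rintro ⟨b, h3, b', h4, h2⟩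
      exact ⟨b', ih.2 ⟨b, h3, h4⟩, h2⟩

theorem path_single {l : Letter k} {a b : Fin k → U} :
    Path X [l] a b ↔ ∀ i, Rel X l (a i) (b i) := by
  simp [Path]

theorem path_reindex {w : List (Letter k)} {a b : Fin k → U} (h : Path X w a b)
    (σ : Fin k → Fin k) : Path X w (a ∘ σ) (b ∘ σ) := by
  induction w generalizing b with
  | nil => rw [show a = b from h]; rfl
  | cons l w ih =>
    obtain ⟨b', h1, h2⟩ := h
    exact ⟨b' ∘ σ, ih h1, fun i => h2 (σ i)⟩

variable (hX : Val X)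
include hX

theorem E_dom' {l : ℕ × Bool} {x y : U} (h : X.E l x y) : y ∈ (X.A (X.src (iv l))).D :=
  hX.E_dom _ _ _ (hX.E_sym _ _ _ h)

theorem E_inj {l : ℕ × Bool} {x x' y : U} (h : X.E l x y) (h' : X.E l x' y) : x = x' :=
  hX.E_fn _ _ _ _ (hX.E_sym _ _ _ h) (hX.E_sym _ _ _ h')

theorem Φ_mem' {l : ℕ × Bool} (hl : l.1 < X.n) {h h' : Equiv.Perm (Fin k)}
    (hh : (h, h') ∈ X.Φ l) : h' ∈ S.T (X.A (X.src (iv l))).c :=
  hX.Φ_mem (iv l) hl _ _ (hX.Φ_sym l hl _ _ hh)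

theorem Φ_inj' {l : ℕ × Bool} (hl : l.1 < X.n) {h : Equiv.Perm (Fin k)}
    (hh : (h, 1) ∈ X.Φ l) : h = 1 :=
  hX.Φ_inj (iv l) hl _ (hX.Φ_sym l hl _ _ hh)

theorem Φ_fn {l : ℕ × Bool} (hl : l.1 < X.n) {h h' h'' : Equiv.Perm (Fin k)}
    (h1 : (h, h') ∈ X.Φ l) (h2 : (h, h'') ∈ X.Φ l) : h' = h'' := by
  have h3 := mul_mem (inv_mem h1) h2
  have h4 : (h, h')⁻¹ * (h, h'') = (1, h'⁻¹ * h'') := by
    ext1 <;> simp
  rw [h4] at h3
  exact (inv_mul_eq_one.1 (hX.Φ_inj l hl _ h3))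

theorem Φ_fn' {l : ℕ × Bool} (hl : l.1 < X.n) {h h' h'' : Equiv.Perm (Fin k)}
    (h1 : (h', h) ∈ X.Φ l) (h2 : (h'', h) ∈ X.Φ l) : h' = h'' :=
  Φ_fn hX (l := iv l) hl (hX.Φ_sym l hl _ _ h1) (hX.Φ_sym l hl _ _ h2)

theorem rel_inv {l : Letter k} {x y : U} (h : Rel X l x y) : Rel X (lv l) y x := by
  rcases l with ⟨j, γ⟩ | l
  · obtain ⟨h1, h2, h3, rfl⟩ := h
    exact ⟨h1, inv_mem h2, (X.A j).map_mem _ h2 _ h3, ((X.A j).inv_act h2 h3).symm⟩
  · exact hX.E_sym _ _ _ h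

theorem rel_fn {l : Letter k} {x y y' : U} (h : Rel X l x y) (h' : Rel X l x y') : y = y' := by
  rcases l with ⟨j, γ⟩ | l
  · exact h.2.2.2.trans h'.2.2.2.symm
  · exact hX.E_fn _ _ _ _ h h'

theorem rel_inj {l : Letter k} {x x' y : U} (h : Rel X l x y) (h' : Rel X l x' y) : x = x' :=
  rel_fn hX (rel_inv hX h) (rel_inv hX h')

theorem rel_P (l : Letter k) : S.P {p | Rel X l p.1 p.2} := by
  rcases l with ⟨j, γ⟩ | l
  · by_cases hγ : γ ∈ S.T (X.A j).c
    · refine S.mono _ _ ?_ ((X.A j).pres γ hγ)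
      rintro p ⟨-, -, h3, h4⟩
      exact ⟨h3, h4⟩
    · refine S.mono _ _ ?_ S.P_empty
      rintro p ⟨-, h2, -, -⟩
      exact absurd h2 hγ
  · exact hX.E_P l

theorem path_P {w : List (Letter k)} {a b : Fin k → U} (h : Path X w a b) :
    S.P (tup a b) := by
  induction w generalizing b with
  | nil =>
    rw [show a = b from h]
    refine S.mono _ _ ?_ S.refl
    rintro p ⟨m, rfl⟩
    rfl
  | cons l w ih =>
    obtain ⟨b', h1, h2⟩ := h
    refine S.mono _ _ ?_ (S.comp _ _ (ih h1) (rel_P hX l))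
    rintro p ⟨m, rfl⟩
    exact ⟨b' m, ⟨m, rfl⟩, h2 m⟩

theorem path_inv {w : List (Letter k)} {a b : Fin k → U} (h : Path X w a b) :
    ∃ w', Path X w' b a := by
  induction w generalizing b with
  | nil => exact ⟨[], (show a = b from h).symm⟩
  | cons l w ih =>
    obtain ⟨b', h1, h2⟩ := h
    obtain ⟨w', hw'⟩ := ih h1
    exact ⟨w' ++ [lv l], path_append.2 ⟨b', path_single.2 fun i => rel_inv hX (h2 i), hw'⟩⟩

theorem path_inj {w : List (Letter k)} {a b : Fin k → U} (ha : Injective a)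
    (h : Path X w a b) : Injective b := by
  induction w generalizing b with
  | nil => rwa [← show a = b from h]
  | cons l w ih =>
    obtain ⟨b', h1, h2⟩ := h
    intro i j hij
    refine ih h1 (rel_inj hX (h2 i) ?_)
    rw [hij]
    exact h2 j

theorem based_of_rel (hk : 0 < k) {l : Letter k} {a b : Fin k → U}
    (h : ∀ i, Rel X l (a i) (b i)) : Based X a := by
  rcases l with ⟨j, γ⟩ | l
  · exact ⟨j, (h ⟨0, hk⟩).1, fun i => (h i).2.2.1⟩
  · exact ⟨X.src l, hX.src_lt l (hX.E_act _ _ _ (h ⟨0, hk⟩)), fun i => hX.E_dom _ _ _ (h i)⟩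

omit hX in
/-- roots can be reindexed -/
theorem Root.reindex {b : Fin k → U} {j : ℕ} (h : Root X b j) (σ : Equiv.Perm (Fin k)) :
    Root X (b ∘ σ) j := by
  obtain ⟨h1, h2, h3⟩ := h
  refine ⟨h1, fun i => h2 _, fun w b' hp hr => ?_⟩
  have h4 := path_reindex hp σ.symm
  have h5 : (b ∘ σ) ∘ σ.symm = b := by ext i; simp
  rw [h5] at h4
  obtain ⟨γ, hγ, hs, he⟩ := h3 w _ h4 (by
    rw [range_comp_perm, hr, range_comp_perm])
  refine ⟨γ, hγ, hs, ?_⟩
  funext i
  have := congrFun he (σ i)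
  simpa using this

end Paths

/-- letters `inl` only move a tuple inside the domain -/
theorem path_act {X : Sys S} {j : ℕ} (hj : j < X.m) {γ : Equiv.Perm (Fin k)}
    (hγ : γ ∈ S.T (X.A j).c) {b : Fin k → U} (hb : ∀ i, b i ∈ (X.A j).D) :
    Path X [.inl (j, γ)] b (fun i => (X.A j).act γ (b i)) :=
  path_single.2 fun i => ⟨hj, hγ, hb i, rfl⟩

/-- persistence of roots: `N` is the set of fresh points -/
theorem Root.persist {X Y : Sys S} (hle : Le X Y) {N : Set U}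
    (hN : ∀ j < X.m, ∀ x ∈ (X.A j).D, x ∉ N)
    (hcons : ∀ w a b, (∀ i, a i ∉ N) → (∀ i, b i ∉ N) → Path Y w a b →
      ∃ w', Path X w' a b ∧ Sem Y w w') {b : Fin k → U} {j : ℕ} (h : Root X b j) :
    Root Y b j := by
  obtain ⟨h1, h2, h3⟩ := h
  have hb : ∀ i, b i ∉ N := fun i => hN j h1 _ (h2 i)
  refine ⟨h1.trans_le hle.m_le, fun i => hle.D_sub j h1 (h2 i), fun w b' hp hr => ?_⟩
  have hb' : ∀ i, b' i ∉ N := by
    intro i
    have : b' i ∈ Set.range b := hr ▸ ⟨i, rfl⟩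
    obtain ⟨i', hi'⟩ := this
    rw [← hi']
    exact hb i'
  obtain ⟨w', hw', hs⟩ := hcons w b b' hb hb' hp
  obtain ⟨γ, hγ, hs', he⟩ := h3 w' b' hw' hr
  refine ⟨γ, by rw [hle.c_eq j h1]; exact hγ, hs.trans (hle.sem hs'), ?_⟩
  rw [he]
  funext i
  exact (hle.act_eq j h1 γ hγ _ (h2 i)).symm

end Pool.Agent.R654.SharpCore
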