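import Pool.Agent.R654.SharpCore1

/-!
# Core theorem on sharp actions, second part: extension of partial actions and letters (helper891)
-/

set_option autoImplicit false

open Function

namespace Pool.Agent.R654.SharpCore

variable {U : Type} {k : ℕ} {S : Setup U k}

theorem path_not_based {X : Sys S} (hX : Val X) (hk : 0 < k) {w : List (Letter k)}
    {b b' : Fin k → U} (h : ¬ Based X b) (hp : Path X w b b') : w = [] := by
  induction w generalizing b' with
  | nil => rfl
  | cons l w ih =>
    obtain ⟨b'', h1, h2⟩ := hp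
    have h3 := ih h1
    subst h3
    rw [← show b = b'' from h1] at h2
    exact absurd (based_of_rel hX hk h2) h

/-! ### Replacing a partial action -/

/-- replace the partial action `t` -/
def updA (X : Sys S) (t : ℕ) (B : PAct S) : Sys S := { X with A := Function.update X.A t B }

section updA

variable {X : Sys S} {t : ℕ} {B : PAct S} {y : U}

theorem updA_self : (updA X t B).A t = B := Function.update_self ..

theorem updA_ne {j : ℕ} (h : j ≠ t) : (updA X t B).A j = X.A j := Function.update_of_ne h ..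

theorem ext_mem {A : PAct S} (hB : Ext S A B y) (h1y : B.act 1 y = y) : y ∈ B.D :=
  (hB.D_eq y).2 (Or.inr ⟨1, one_mem _, h1y.symm⟩)

theorem updA_c (hB : Ext S (X.A t) B y) (j : ℕ) : ((updA X t B).A j).c = (X.A j).c := by
  by_cases h : j = t
  · subst h; rw [updA_self, hB.c_eq]
  · rw [updA_ne h]

theorem updA_le (hB : Ext S (X.A t) B y) : Le X (updA X t B) where
  m_le := le_rfl
  n_le := le_rfl
  c_eq j _ := updA_c hB j
  D_sub j _ := by
    by_cases h : j = t
    · subst h; rw [updA_self]; intro x hx; exact (hB.D_eq x).2 (Or.inl hx)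
    · rw [updA_ne h]
  act_eq j _ γ hγ x hx := by
    by_cases h : j = t
    · subst h; rw [updA_self]; exact hB.act_eq γ hγ x hx
    · rw [updA_ne h]
  src_eq _ _ := rfl
  Φ_eq _ _ := rfl
  E_le _ _ _ h := h

theorem updA_val (hX : Val X) (hB : Ext S (X.A t) B y) (h1y : B.act 1 y = y) :
    Val (updA X t B) where
  src_lt := hX.src_lt
  E_act := hX.E_act
  E_dom l x z h := (updA_le hB).D_sub _ (hX.src_lt l (hX.E_act _ _ _ h)) (hX.E_dom _ _ _ h)
  E_sym := hX.E_sym
  E_fn := hX.E_fn
  E_P := hX.E_P
  E_ne := hX.E_ne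
  Φ_sym := hX.Φ_sym
  Φ_mem l hl h h' hh := by rw [updA_c hB]; exact hX.Φ_mem l hl h h' hh
  Φ_inj := hX.Φ_inj
  E_eqv l x z h h' hxz hh := by
    have hl := hX.E_act _ _ _ hxz
    have e1 := (updA_le hB).act_eq _ (hX.src_lt l hl) h (hX.Φ_mem l hl h h' hh) x
      (hX.E_dom _ _ _ hxz)
    have e2 := (updA_le hB).act_eq _ (hX.src_lt (iv l) hl) h' (Φ_mem' hX hl hh) z (E_dom' hX hxz)
    change X.E l (((updA X t B).A (X.src l)).act h x) (((updA X t B).A (X.src (iv l))).act h' z)
    rw [e1, e2]
    exact hX.E_eqv l x z h h' hxz hh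
  F l hl h h' hh h1 z hz hfix := by
    change z ∈ ((updA X t B).A (X.src l)).D at hz
    change ((updA X t B).A (X.src l)).act h z = z at hfix
    have hm := hX.Φ_mem l hl h h' hh
    by_cases hz' : z ∈ (X.A (X.src l)).D
    · rw [(updA_le hB).act_eq _ (hX.src_lt l hl) h hm z hz'] at hfix
      exact hX.F l hl h h' hh h1 z hz' hfix
    · exfalso
      have hst : X.src l = t := by
        by_contra hne
        rw [updA_ne hne] at hz
        exact hz' hz
      rw [hst] at hz hfix hz' hm
      rw [updA_self] at hz hfix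
      rcases (hB.D_eq z).1 hz with h2 | ⟨γ, hγ, rfl⟩
      · exact hz' h2
      · rw [← B.mul h (by rw [hB.c_eq]; exact hm) γ (by rw [hB.c_eq]; exact hγ) y
          (ext_mem hB h1y)] at hfix
        have := hB.free _ (mul_mem hm hγ) _ hγ hfix
        exact h1 (mul_eq_right.1 this)
  I4 j hj j' hj' hne ρ := by
    rw [updA_c hB, updA_c hB]
    exact hX.I4 j hj j' hj' hne ρ

theorem updA_cases (hB : Ext S (X.A t) B y) {j : ℕ} {z : U}
    (hz : z ∈ ((updA X t B).A j).D) :
    z ∈ (X.A j).D ∨ (j = t ∧ ∃ γ ∈ S.T (X.A t).c, z = B.act γ y) := by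
  by_cases h : j = t
  · subst h
    rw [updA_self] at hz
    rcases (hB.D_eq z).1 hz with h2 | h2
    · exact Or.inl h2
    · exact Or.inr ⟨rfl, h2⟩
  · rw [updA_ne h] at hz
    exact Or.inl hz

end updA

/-! ### E1: a new point in the domain of a partial action -/

/-- the fresh points -/
def N1 (X : Sys S) (t : ℕ) (B : PAct S) (x : U) : Set U :=
  {z | ∃ γ ∈ S.T (X.A t).c, γ ≠ 1 ∧ z = B.act γ x}

section E1

variable {X : Sys S} {t : ℕ} {B : PAct S} {x : U}

theorem x_notin (hB : Ext S (X.A t) B x) (h1x : B.act 1 x = x) : x ∉ N1 X t B x := by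
  rintro ⟨γ, hγ, h1, h2⟩
  exact h1 (hB.free 1 (one_mem _) γ hγ (h1x.trans h2)).symm

variable (hX : Val X) (ht : t < X.m) (hB : Ext S (X.A t) B x) (h1x : B.act 1 x = x)
  (hN : ∀ j < X.m, ∀ z ∈ (X.A j).D, z ∉ N1 X t B x)
include hX ht hB h1x hN

theorem cons1 (w : List (Letter k)) : ∀ a b : Fin k → U, (∀ i, a i ∉ N1 X t B x) →
    Path (updA X t B) w a b →
    ((∀ i, b i ∉ N1 X t B x) ∧ ∃ w', Path X w' a b ∧ Sem (updA X t B) w w') ∨
    ∃ γ ∈ S.T (X.A t).c, γ ≠ 1 ∧ ∃ (b0 : Fin k → U) (w0 : List (Letter k)),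
      (∀ i, b0 i ∉ N1 X t B x) ∧ (∀ i, b0 i ∈ B.D) ∧ (∃ i, b0 i = x) ∧ Path X w0 a b0 ∧
      Sem (updA X t B) w (.inl (t, γ) :: w0) ∧ b = fun i => B.act γ (b0 i) := by
  induction w with
  | nil =>
    intro a b ha h
    rw [← show a = b from h]
    exact Or.inl ⟨ha, [], rfl, Sem.refl _⟩
  | cons l w ih =>
    intro a b ha h
    obtain ⟨b', h1, h2⟩ := h
    have hxB : x ∈ B.D := ext_mem hB h1x
    rcases ih a b' ha h1 with ⟨hb', w', hw', hs⟩ | ⟨γ, hγ, hγ1, b0, w0, hb0, hb0D, ⟨i0, hi0⟩, hw0,
      hs, rfl⟩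
    · rcases l with ⟨j, δ⟩ | l
      · by_cases hold : ∀ i, Rel X (.inl (j, δ)) (b' i) (b i)
        · left
          refine ⟨fun i => ?_, .inl (j, δ) :: w', ⟨b', hw', hold⟩, hs.cons _⟩
          obtain ⟨e1, e2, e3, e4⟩ := hold i
          rw [e4]
          exact hN j e1 _ ((X.A j).map_mem _ e2 _ e3)
        · -- the letter must be new
          have hj : j = t := by
            by_contra hne
            refine hold fun i => ?_
            obtain ⟨e1, e2, e3, e4⟩ := h2 i
            rw [updA_ne hne] at e2 e3 e4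
            exact ⟨e1, e2, e3, e4⟩
          subst hj
          have h2' : ∀ i, δ ∈ S.T (X.A j).c ∧ b' i ∈ B.D ∧ b i = B.act δ (b' i) := by
            intro i
            obtain ⟨e1, e2, e3, e4⟩ := h2 i
            rw [updA_c hB] at e2
            rw [updA_self] at e3 e4
            exact ⟨e2, e3, e4⟩
          have hex : ∃ i, b' i = x := by
            by_contra hne
            refine hold fun i => ?_
            obtain ⟨e2, e3, e4⟩ := h2' i
            have e5 : b' i ∈ (X.A j).D := by
              rcases (hB.D_eq _).1 e3 with e5 | ⟨γ, hγ, e5⟩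
              · exact e5
              · exfalso
                by_cases hγ1 : γ = 1
                · rw [hγ1, h1x] at e5
                  exact hne ⟨i, e5⟩
                · exact hb' i ⟨γ, hγ, hγ1, e5⟩
            exact ⟨ht, e2, e5, by rw [e4, hB.act_eq δ e2 _ e5]⟩
          obtain ⟨i0, hi0⟩ := hex
          by_cases hδ : δ = 1
          · left
            have hbb : b = b' := by
              funext i
              obtain ⟨e2, e3, e4⟩ := h2' i
              rw [e4, hδ, B.one _ e3]
            rw [hbb, hδ]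
            exact ⟨hb', w', hw', (Sem.one (X := updA X j B) ht w).trans hs⟩
          · right
            exact ⟨δ, (h2' i0).1, hδ, b', w', hb', fun i => (h2' i).2.1, ⟨i0, hi0⟩, hw',
              hs.cons _, funext fun i => (h2' i).2.2⟩
      · left
        refine ⟨fun i => ?_, .inr l :: w', ⟨b', hw', h2⟩, hs.cons _⟩
        have e1 : X.E l (b' i) (b i) := h2 i
        exact hN _ (hX.src_lt (iv l) (hX.E_act _ _ _ (hX.E_sym _ _ _ e1))) _ (E_dom' hX e1)
    · -- second state
      have hfr : B.act γ (b0 i0) ∈ N1 X t B x := ⟨γ, hγ, hγ1, by rw [hi0]⟩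
      rcases l with ⟨j, δ⟩ | l
      · have hj : j = t := by
          by_contra hne
          obtain ⟨e1, e2, e3, e4⟩ := h2 i0
          rw [updA_ne hne] at e3
          exact hN j e1 _ e3 hfr
        subst hj
        have hδ : δ ∈ S.T (X.A j).c := by
          have := (h2 i0).2.1
          rwa [updA_c hB] at this
        have hb : b = fun i => B.act (δ * γ) (b0 i) := by
          funext i
          obtain ⟨e1, e2, e3, e4⟩ := h2 i
          rw [updA_self] at e4
          rw [e4, B.mul δ (by rw [hB.c_eq]; exact hδ) γ (by rw [hB.c_eq]; exact hγ) _ (hb0D i)]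
        have hs' : Sem (updA X j B) (.inl (j, δ) :: w) (.inl (j, δ * γ) :: w0) :=
          (hs.cons _).trans (Sem.mul (X := updA X j B) ht (by rw [updA_c hB]; exact hδ)
            (by rw [updA_c hB]; exact hγ) w0)
        by_cases h1 : δ * γ = 1
        · left
          have hbb : b = b0 := by
            rw [hb]
            funext i
            rw [h1, B.one _ (hb0D i)]
          rw [hbb]
          rw [h1] at hs'
          exact ⟨hb0, w0, hw0, hs'.trans (Sem.one (X := updA X j B) ht w0)⟩
        · right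
          exact ⟨δ * γ, mul_mem hδ hγ, h1, b0, w0, hb0, hb0D, ⟨i0, hi0⟩, hw0, hs', hb⟩
      · exfalso
        have e1 : X.E l (B.act γ (b0 i0)) (b i0) := h2 i0
        exact hN _ (hX.src_lt l (hX.E_act _ _ _ e1)) _ (hX.E_dom _ _ _ e1) hfr

theorem cons1' (w : List (Letter k)) (a b : Fin k → U) (ha : ∀ i, a i ∉ N1 X t B x)
    (hb : ∀ i, b i ∉ N1 X t B x) (hp : Path (updA X t B) w a b) :
    ∃ w', Path X w' a b ∧ Sem (updA X t B) w w' := by
  rcases cons1 hX ht hB h1x hN w a b ha hp with ⟨-, h⟩ | ⟨γ, hγ, hγ1, b0, w0, -, -, ⟨i0, hi0⟩, -,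
    -, rfl⟩
  · exact h
  · exact absurd ⟨γ, hγ, hγ1, congrArg (B.act γ) hi0⟩ (hb i0)

omit hX in
theorem inv1 (hk : 0 < k) (hI : Inv X) : Inv (updA X t B) := by
  have hX := hI.val
  have hle : Le X (updA X t B) := updA_le hB
  have hpers : ∀ {b : Fin k → U} {j : ℕ}, Root X b j → Root (updA X t B) b j := fun h =>
    h.persist hle hN (cons1' hX ht hB h1x hN)
  have hold : ∀ b : Fin k → U, Injective b → Based (updA X t B) b → (∀ i, b i ∉ N1 X t B x) →
      ∃ w b0 j0, Path (updA X t B) w b b0 ∧ Root (updA X t B) b0 j0 := by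
    intro b hb hbased hbo
    by_cases hbX : Based X b
    · obtain ⟨w, b0, j0, hp, hr⟩ := hI.I3 b hb hbX
      exact ⟨w, b0, j0, hle.path hp, hpers hr⟩
    · obtain ⟨j, hj, hbD⟩ := hbased
      have hjt : j = t := by
        by_contra hne
        exact hbX ⟨j, hj, fun i => by have := hbD i; rwa [updA_ne hne] at this⟩
      subst hjt
      refine ⟨[], b, j, rfl, hj, hbD, fun w b' hp hr => ?_⟩
      have hb' : ∀ i, b' i ∉ N1 X j B x := by
        intro i
        have : b' i ∈ Set.range b := hr ▸ ⟨i, rfl⟩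
        obtain ⟨i', hi'⟩ := this
        rw [← hi']
        exact hbo i'
      obtain ⟨w', hw', hs⟩ := cons1' hX ht hB h1x hN w b b' hbo hb' hp
      have := path_not_based hX hk hbX hw'
      subst this
      refine ⟨1, one_mem _, hs.trans (Sem.one (X := updA X j B) hj []).symm, ?_⟩
      rw [← show b = b' from hw']
      funext i
      rw [PAct.one _ _ (hbD i)]
  refine ⟨updA_val hX hB h1x, fun j hj => ?_, fun b hb hbased => ?_⟩
  · have := hpers (hI.I1 j hj)
    rwa [updA_c hB]
  · by_cases hbo : ∀ i, b i ∉ N1 X t B x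
    · exact hold b hb hbased hbo
    · push Not at hbo
      obtain ⟨i0, hi0⟩ := hbo
      obtain ⟨j, hj, hbD⟩ := hbased
      have hjt : j = t := by
        by_contra hne
        have := hbD i0
        rw [updA_ne hne] at this
        exact hN j hj _ this hi0
      subst hjt
      have hbD' : ∀ i, b i ∈ B.D := fun i => by
        have := hbD i
        rwa [updA_self] at this
      by_cases hγ : ∃ γ ∈ S.T (X.A j).c, ∀ i, B.act γ (b i) ∉ N1 X j B x
      · obtain ⟨γ, hγ, hbo⟩ := hγ
        have hγB : γ ∈ S.T B.c := by rw [hB.c_eq]; exact hγ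
        have hinj : Injective (fun i => B.act γ (b i)) := fun i i' h =>
          hb (B.act_inj hγB (hbD' i) (hbD' i') h)
        obtain ⟨w, b0, j0, hp, hr⟩ := hold _ hinj ⟨j, hj, fun i => by
          rw [updA_self]; exact B.map_mem _ hγB _ (hbD' i)⟩ hbo
        refine ⟨w ++ [.inl (j, γ)], b0, j0, path_append.2 ⟨_, ?_, hp⟩, hr⟩
        refine path_single.2 fun i => ⟨hj, by rw [updA_c hB]; exact hγ, hbD i, ?_⟩
        rw [updA_self]
      · push Not at hγ
        refine ⟨[], b, j, rfl, hj, hbD, fun w b' hp _ => ?_⟩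
        have key : ∀ w b', Path (updA X j B) w b b' → ∃ γ ∈ S.T (X.A j).c,
            Sem (updA X j B) w [.inl (j, γ)] ∧ b' = fun i => B.act γ (b i) := by
          intro w
          induction w with
          | nil =>
            intro b' h
            refine ⟨1, one_mem _, (Sem.one (X := updA X j B) hj []).symm, ?_⟩
            rw [← show b = b' from h]
            funext i
            rw [B.one _ (hbD' i)]
          | cons l w ih =>
            intro b' h
            obtain ⟨b'', h1, h2⟩ := h
            obtain ⟨γ, hγ', hs, rfl⟩ := ih b'' h1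
            obtain ⟨i1, hi1⟩ := hγ γ hγ'
            rcases l with ⟨j', δ⟩ | l
            · have hjj : j' = j := by
                by_contra hne
                obtain ⟨e1, e2, e3, e4⟩ := h2 i1
                rw [updA_ne hne] at e3
                exact hN j' e1 _ e3 hi1
              subst hjj
              have hδ : δ ∈ S.T (X.A j').c := by
                have := (h2 i1).2.1
                rwa [updA_c hB] at this
              refine ⟨δ * γ, mul_mem hδ hγ', (hs.cons _).trans (Sem.mul (X := updA X j' B) hj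
                (by rw [updA_c hB]; exact hδ) (by rw [updA_c hB]; exact hγ') []), ?_⟩
              funext i
              obtain ⟨e1, e2, e3, e4⟩ := h2 i
              rw [updA_self] at e4
              rw [e4, B.mul δ (by rw [hB.c_eq]; exact hδ) γ (by rw [hB.c_eq]; exact hγ') _
                (hbD' i)]
            · exfalso
              have e1 : X.E l (B.act γ (b i1)) (b' i1) := h2 i1
              exact hN _ (hX.src_lt l (hX.E_act _ _ _ e1)) _ (hX.E_dom _ _ _ e1) hi1
        obtain ⟨γ, hγ', hs, he⟩ := key w b' hp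
        exact ⟨γ, by rw [updA_c hB]; exact hγ', hs, by rw [he, updA_self]⟩

end E1

/-- the finite set of all points -/
noncomputable def supp (X : Sys S) : Finset U := by
  classical exact (Finset.range X.m).biUnion fun j => (X.A j).D

theorem mem_supp {X : Sys S} {j : ℕ} (hj : j < X.m) {z : U} (hz : z ∈ (X.A j).D) :
    z ∈ supp X := by
  classical
  unfold supp
  rw [Finset.mem_biUnion]
  exact ⟨j, Finset.mem_range.2 hj, hz⟩

theorem stepE1 (hk : 0 < k) (hS : Good S) (X : Sys S) (hI : Inv X) {j : ℕ} (hj : j < X.m) (x : U) :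
    ∃ Y : Sys S, Inv Y ∧ Le X Y ∧ x ∈ (Y.A j).D := by
  by_cases hx : x ∈ (X.A j).D
  · exact ⟨X, hI, Le.refl X, hx⟩
  · obtain ⟨B, hB, h1x, hF⟩ := hS.ext1 (X.A j) x hx (supp X)
    have hN : ∀ j' < X.m, ∀ z ∈ (X.A j').D, z ∉ N1 X j B x := by
      rintro j' hj' z hz ⟨γ, hγ, h1, rfl⟩
      exact hF γ hγ h1 (mem_supp hj' hz)
    refine ⟨updA X j B, inv1 hj hB h1x hN hk hI, updA_le hB, ?_⟩
    rw [updA_self]
    exact ext_mem hB h1x

end Pool.Agent.R654.SharpCore
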