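import Pool.Agent.R654.SharpCore2

/-!
# Core theorem on sharp actions, third part: extension of stable letters (helper891)
-/

set_option autoImplicit false

open Function

namespace Pool.Agent.R654.SharpCore

variable {U : Type} {k : ℕ} {S : Setup U k}

/-- the new edges of the letter `l` -/
def New (X : Sys S) (l : ℕ × Bool) (x : U) (B : PAct S) (y : U) (u v : U) : Prop :=
  ∃ h h', (h, h') ∈ X.Φ l ∧ u = (X.A (X.src l)).act h x ∧ v = B.act h' y

/-- add the new edges -/
def updE (X : Sys S) (l : ℕ × Bool) (x : U) (B : PAct S) (y : U) : Sys S :=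
  { updA X (X.src (iv l)) B with
    E := fun l' u v => X.E l' u v ∨ (l' = l ∧ New X l x B y u v) ∨ (l' = iv l ∧ New X l x B y v u) }

/-- the fresh points -/
def N2 (X : Sys S) (l : ℕ × Bool) (B : PAct S) (y : U) : Set U :=
  {z | ∃ γ ∈ S.T (X.A (X.src (iv l))).c, z = B.act γ y}

/-- the hypotheses on the extension -/
structure Hyp (X : Sys S) (l : ℕ × Bool) (x : U) (B : PAct S) (y : U) : Prop where
  hl : l.1 < X.n
  hB : Ext S (X.A (X.src (iv l))) B y
  h1y : B.act 1 y = y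
  hN : ∀ j < X.m, ∀ z ∈ (X.A j).D, z ∉ N2 X l B y
  hx : x ∈ (X.A (X.src l)).D
  hxE : ∀ v, ¬ X.E l x v
  hP : S.P {p | X.E l p.1 p.2 ∨ New X l x B y p.1 p.2}

section E2

variable {X : Sys S} {l : ℕ × Bool} {x : U} {B : PAct S} {y : U}

theorem updE_le (hH : Hyp X l x B y) : Le X (updE X l x B y) :=
  { updA_le hH.hB with E_le := fun _ _ _ h => Or.inl h }

variable (hX : Val X) (hH : Hyp X l x B y)
include hX hH

theorem hxE' {h h' : Equiv.Perm (Fin k)} (hh : (h, h') ∈ X.Φ l) (v : U) :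
    ¬ X.E l ((X.A (X.src l)).act h x) v := by
  intro hv
  have h3 : (h⁻¹, h'⁻¹) ∈ X.Φ l := inv_mem hh
  have h1 := hX.E_eqv l _ v _ _ hv h3
  rw [PAct.inv_act _ (hX.Φ_mem l hH.hl _ _ hh) hH.hx] at h1
  exact hH.hxE _ h1

theorem x_free {h h' : Equiv.Perm (Fin k)} (hh : (h, h') ∈ X.Φ l)
    (hfix : (X.A (X.src l)).act h x = x) : h = 1 := by
  by_contra hne
  obtain ⟨v, hv⟩ := hX.F l hH.hl h h' hh hne x hH.hx hfix
  exact hH.hxE _ hv

theorem new_dom {u v : U} (h : New X l x B y u v) : u ∈ (X.A (X.src l)).D := by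
  obtain ⟨h, h', hh, rfl, -⟩ := h
  exact (X.A (X.src l)).map_mem _ (hX.Φ_mem l hH.hl _ _ hh) _ hH.hx

theorem new_N2 {u v : U} (h : New X l x B y u v) : v ∈ N2 X l B y := by
  obtain ⟨h, h', hh, -, rfl⟩ := h
  exact ⟨h', Φ_mem' hX hH.hl hh, rfl⟩

omit hX in
theorem N2_B {z : U} (h : z ∈ N2 X l B y) : z ∈ B.D := by
  obtain ⟨γ, hγ, rfl⟩ := h
  exact B.map_mem _ (by rw [hH.hB.c_eq]; exact hγ) _ (ext_mem hH.hB hH.h1y)

theorem not_N2_of_E {l' : ℕ × Bool} {u v : U} (h : X.E l' u v) : u ∉ N2 X l B y :=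
  hH.hN _ (hX.src_lt l' (hX.E_act _ _ _ h)) _ (hX.E_dom _ _ _ h)

theorem not_N2_of_E' {l' : ℕ × Bool} {u v : U} (h : X.E l' u v) : v ∉ N2 X l B y :=
  not_N2_of_E hX hH (hX.E_sym _ _ _ h)

theorem not_N2_of_new {u v : U} (h : New X l x B y u v) : u ∉ N2 X l B y :=
  hH.hN _ (hX.src_lt l hH.hl) _ (new_dom hX hH h)

theorem new_fn {u v v' : U} (q : New X l x B y u v) (q' : New X l x B y u v') : v = v' := by
  obtain ⟨h, h', hh, e1, rfl⟩ := q
  obtain ⟨g, g', hg, e2, rfl⟩ := q'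
  have hm := hX.Φ_mem l hH.hl _ _ hh
  have gm := hX.Φ_mem l hH.hl _ _ hg
  have h1 : (X.A (X.src l)).act (h⁻¹ * g) x = x := by
    rw [PAct.mul _ _ (inv_mem hm) _ gm _ hH.hx, ← e2, e1, PAct.inv_act _ hm hH.hx]
  have h2 : (h⁻¹ * g, h'⁻¹ * g') ∈ X.Φ l := mul_mem (inv_mem hh) hg
  have h3 := x_free hX hH h2 h1
  have h4 : h = g := inv_mul_eq_one.1 h3
  subst h4
  rw [Φ_fn hX hH.hl hh hg]

theorem new_inj {u u' v : U} (q : New X l x B y u v) (q' : New X l x B y u' v) : u = u' := by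
  obtain ⟨h, h', hh, rfl, e1⟩ := q
  obtain ⟨g, g', hg, rfl, e2⟩ := q'
  have := hH.hB.free _ (Φ_mem' hX hH.hl hh) _ (Φ_mem' hX hH.hl hg) (e1.symm.trans e2)
  subst this
  rw [Φ_fn' hX hH.hl hh hg]

theorem updE_val : Val (updE X l x B y) where
  src_lt := hX.src_lt
  E_act := by
    rintro l' u v (h | ⟨rfl, -⟩ | ⟨rfl, -⟩)
    · exact hX.E_act _ _ _ h
    · exact hH.hl
    · exact hH.hl
  E_dom := by
    have h0 := updA_val hX hH.hB hH.h1y
    rintro l' u v (h | ⟨rfl, h⟩ | ⟨rfl, h⟩)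
    · exact h0.E_dom _ _ _ h
    · exact (updA_le hH.hB).D_sub _ (hX.src_lt l' hH.hl) (new_dom hX hH h)
    · change u ∈ ((updA X (X.src (iv l)) B).A (X.src (iv l))).D
      rw [updA_self]
      exact N2_B hH (new_N2 hX hH h)
  E_sym := by
    rintro l' u v (h | ⟨rfl, h⟩ | ⟨rfl, h⟩)
    · exact Or.inl (hX.E_sym _ _ _ h)
    · exact Or.inr (Or.inr ⟨rfl, h⟩)
    · exact Or.inr (Or.inl ⟨iv_iv l, h⟩)
  E_fn := by
    rintro l' u v v' (h | ⟨e, h⟩ | ⟨e, h⟩) (h' | ⟨e', h'⟩ | ⟨e', h'⟩)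
    · exact hX.E_fn _ _ _ _ h h'
    · subst e'
      obtain ⟨g, g', hg, rfl, -⟩ := h'
      exact absurd h (hxE' hX hH hg v)
    · subst e'
      exact absurd (new_N2 hX hH h') (not_N2_of_E hX hH h)
    · subst e
      obtain ⟨g, g', hg, rfl, -⟩ := h
      exact absurd h' (hxE' hX hH hg v')
    · exact new_fn hX hH h h'
    · exact absurd (e'.symm.trans e) (iv_ne l)
    · subst e
      exact absurd (new_N2 hX hH h) (not_N2_of_E hX hH h')
    · exact absurd (e.symm.trans e') (iv_ne l)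
    · exact new_inj hX hH h h'
  E_P := by
    intro l'
    by_cases h1 : l' = l
    · subst h1
      refine S.mono _ _ ?_ hH.hP
      rintro p (h | ⟨-, h⟩ | ⟨h, -⟩)
      · exact Or.inl h
      · exact Or.inr h
      · exact absurd h.symm (iv_ne l')
    · by_cases h2 : l' = iv l
      · subst h2
        refine S.mono _ _ ?_ (S.symm _ hH.hP)
        rintro p (h | ⟨h, -⟩ | ⟨-, h⟩)
        · refine Or.inl ?_
          have := hX.E_sym _ _ _ h
          rwa [iv_iv] at this
        · exact absurd h (iv_ne l)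
        · exact Or.inr h
      · refine S.mono _ _ ?_ (hX.E_P l')
        rintro p (h | ⟨h, -⟩ | ⟨h, -⟩)
        · exact h
        · exact absurd h h1
        · exact absurd h h2
  E_ne := by
    intro l' hl'
    obtain ⟨u, v, h⟩ := hX.E_ne l' hl'
    exact ⟨u, v, Or.inl h⟩
  Φ_sym := hX.Φ_sym
  Φ_mem := (updA_val hX hH.hB hH.h1y).Φ_mem
  Φ_inj := hX.Φ_inj
  E_eqv := by
    have h0 := updA_val hX hH.hB hH.h1y
    have hle := updA_le hH.hB
    have keyl : ∀ h h' u v, (h, h') ∈ X.Φ l → New X l x B y u v →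
        New X l x B y (((updA X (X.src (iv l)) B).A (X.src l)).act h u)
          (((updA X (X.src (iv l)) B).A (X.src (iv l))).act h' v) := by
      intro g g' u v hg hn
      have hn' := hn
      obtain ⟨h, h', hh, rfl, rfl⟩ := hn
      refine ⟨g * h, g' * h', mul_mem hg hh, ?_, ?_⟩
      · rw [hle.act_eq _ (hX.src_lt l hH.hl) g (hX.Φ_mem l hH.hl _ _ hg) _ (new_dom hX hH hn'),
          ← PAct.mul _ _ (hX.Φ_mem l hH.hl _ _ hg) _ (hX.Φ_mem l hH.hl _ _ hh) _ hH.hx]
      · rw [updA_self, ← B.mul g' (by rw [hH.hB.c_eq]; exact Φ_mem' hX hH.hl hg) h'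
          (by rw [hH.hB.c_eq]; exact Φ_mem' hX hH.hl hh) y (ext_mem hH.hB hH.h1y)]
    rintro l' u v h h' (hE | ⟨rfl, hE⟩ | ⟨rfl, hE⟩) hh
    · exact Or.inl (h0.E_eqv l' u v h h' hE hh)
    · exact Or.inr (Or.inl ⟨rfl, keyl _ _ _ _ hh hE⟩)
    · refine Or.inr (Or.inr ⟨rfl, ?_⟩)
      have h1 := hX.Φ_sym (iv l) hH.hl _ _ hh
      rw [iv_iv] at h1
      have h2 := keyl _ _ _ _ h1 hE
      change New X l x B y (((updA X (X.src (iv l)) B).A (X.src (iv (iv l)))).act h' v) _
      rw [iv_iv]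
      exact h2
  F := by
    intro l' hl' h h' hh h1 z hz hfix
    obtain ⟨v, hv⟩ := (updA_val hX hH.hB hH.h1y).F l' hl' h h' hh h1 z hz hfix
    exact ⟨v, Or.inl hv⟩
  I4 := (updA_val hX hH.hB hH.h1y).I4

omit hX in
theorem updE_D {j : ℕ} {z : U} (hz : z ∈ ((updE X l x B y).A j).D) (hn : z ∉ N2 X l B y) :
    z ∈ (X.A j).D := by
  rcases updA_cases hH.hB hz with h | ⟨-, h⟩
  · exact h
  · exact absurd h hn

omit hX in
theorem updE_D' {j : ℕ} (hj : j < X.m) {z : U} (hz : z ∈ ((updE X l x B y).A j).D)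
    (hn : z ∈ N2 X l B y) : j = X.src (iv l) := by
  rcases updA_cases hH.hB hz with h | ⟨h, -⟩
  · exact absurd hn (hH.hN j hj _ h)
  · exact h

/-- edges at fresh points -/
theorem edge_fresh {l' : ℕ × Bool} {u v : U} (h : (updE X l x B y).E l' u v)
    (hu : u ∈ N2 X l B y) : l' = iv l ∧ New X l x B y v u := by
  rcases h with h | ⟨rfl, h⟩ | ⟨rfl, h⟩
  · exact absurd hu (not_N2_of_E hX hH h)
  · exact absurd hu (not_N2_of_new hX hH h)
  · exact ⟨rfl, h⟩

theorem cons2 (w : List (Letter k)) : ∀ a b : Fin k → U, (∀ i, a i ∉ N2 X l B y) →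
    Path (updE X l x B y) w a b →
    ((∀ i, b i ∉ N2 X l B y) ∧ ∃ w', Path X w' a b ∧ Sem (updE X l x B y) w w') ∨
    ∃ γ ∈ S.T (X.A (X.src (iv l))).c, ∃ (b0 : Fin k → U) (w0 : List (Letter k)) (c : Fin k → U),
      (∀ i, b0 i ∉ N2 X l B y) ∧ Path X w0 a b0 ∧ (∀ i, (updE X l x B y).E l (b0 i) (c i)) ∧
      (∃ i, New X l x B y (b0 i) (c i)) ∧
      Sem (updE X l x B y) w (.inl (X.src (iv l), γ) :: .inr l :: w0) ∧
      b = fun i => B.act γ (c i) := by
  have hle := updE_le hH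
  have hY := updE_val hX hH
  have hcB : ∀ {γ}, γ ∈ S.T (X.A (X.src (iv l))).c → γ ∈ S.T B.c := fun h => by
    rw [hH.hB.c_eq]; exact h
  have hcY : ∀ {γ}, γ ∈ S.T (X.A (X.src (iv l))).c →
      γ ∈ S.T ((updE X l x B y).A (X.src (iv l))).c := fun h => by
    rw [show ((updE X l x B y).A (X.src (iv l))).c = _ from updA_c hH.hB _]; exact h
  have htm : X.src (iv l) < X.m := hX.src_lt (iv l) hH.hl
  have hcD : ∀ {u v}, (updE X l x B y).E l u v → v ∈ B.D := fun {u v} h => by
    have h1 : v ∈ ((updA X (X.src (iv l)) B).A (X.src (iv l))).D := E_dom' hY h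
    rwa [updA_self] at h1
  induction w with
  | nil =>
    intro a b ha h
    rw [← show a = b from h]
    exact Or.inl ⟨ha, [], rfl, Sem.refl _⟩
  | cons l' w ih =>
    intro a b ha h
    obtain ⟨b', h1, h2⟩ := h
    rcases ih a b' ha h1 with ⟨hb', w', hw', hs⟩ | ⟨γ, hγ, b0, w0, c, hb0, hw0, hc, ⟨i0, hi0⟩,
      hs, rfl⟩
    · rcases l' with ⟨j, δ⟩ | l'
      · left
        have hold : ∀ i, Rel X (.inl (j, δ)) (b' i) (b i) := by
          intro i
          obtain ⟨e1, e2, e3, e4⟩ := h2 i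
          have e3' := updE_D hH e3 (hb' i)
          have e2' : δ ∈ S.T (X.A j).c := by
            rwa [show ((updE X l x B y).A j).c = _ from updA_c hH.hB _] at e2
          refine ⟨e1, e2', e3', ?_⟩
          rw [e4]
          exact hle.act_eq j e1 δ e2' _ e3'
        refine ⟨fun i => ?_, .inl (j, δ) :: w', ⟨b', hw', hold⟩, hs.cons _⟩
        obtain ⟨e1, e2, e3, e4⟩ := hold i
        rw [e4]
        exact hH.hN j e1 _ ((X.A j).map_mem _ e2 _ e3)
      · by_cases hold : ∀ i, X.E l' (b' i) (b i)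
        · left
          exact ⟨fun i => not_N2_of_E' hX hH (hold i), .inr l' :: w', ⟨b', hw', hold⟩, hs.cons _⟩
        · right
          push Not at hold
          obtain ⟨i0, hi0⟩ := hold
          rcases h2 i0 with h | ⟨rfl, h⟩ | ⟨rfl, h⟩
          · exact absurd h hi0
          · refine ⟨1, one_mem _, b', w', b, hb', hw', h2, ⟨i0, h⟩, ?_, ?_⟩
            · exact (hs.cons _).trans (Sem.one (X := updE X l' x B y) htm _).symm
            · funext i
              rw [B.one _ (hcD (h2 i))]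
          · exact absurd (new_N2 hX hH h) (hb' i0)
    · -- second state
      have hfr : B.act γ (c i0) ∈ N2 X l B y := by
        obtain ⟨h, h', hh, -, e⟩ := hi0
        refine ⟨γ * h', mul_mem hγ (Φ_mem' hX hH.hl hh), ?_⟩
        rw [e, B.mul γ (hcB hγ) h' (hcB (Φ_mem' hX hH.hl hh)) y (ext_mem hH.hB hH.h1y)]
      rcases l' with ⟨j, δ⟩ | l'
      · right
        obtain ⟨e1, e2, e3, -⟩ := h2 i0
        have hj : j = X.src (iv l) := updE_D' hH e1 e3 hfr
        subst hj
        have hδ : δ ∈ S.T (X.A (X.src (iv l))).c := by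
          rwa [show ((updE X l x B y).A (X.src (iv l))).c = _ from updA_c hH.hB _] at e2
        refine ⟨δ * γ, mul_mem hδ hγ, b0, w0, c, hb0, hw0, hc, ⟨i0, hi0⟩, ?_, ?_⟩
        · exact (hs.cons _).trans (Sem.mul (X := updE X l x B y) htm (hcY hδ) (hcY hγ) _)
        · funext i
          have e4 : b i = ((updA X (X.src (iv l)) B).A (X.src (iv l))).act δ (B.act γ (c i)) :=
            (h2 i).2.2.2
          rw [e4, updA_self, B.mul δ (hcB hδ) γ (hcB hγ) _ (hcD (hc i))]
      · left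
        obtain ⟨e1, e2⟩ := edge_fresh hX hH (h2 i0) hfr
        subst e1
        obtain ⟨h, h', hh, e3, e4⟩ := hi0
        obtain ⟨g, g', hg, e5, e6⟩ := e2
        have hh' := Φ_mem' hX hH.hl hh
        have hg' := Φ_mem' hX hH.hl hg
        have e7 : γ * h' = g' := by
          refine hH.hB.free _ (mul_mem hγ hh') _ hg' ?_
          rw [B.mul γ (hcB hγ) h' (hcB hh') y (ext_mem hH.hB hH.h1y), ← e4]
          exact e6
        have e8 : (g * h⁻¹, γ) ∈ X.Φ l := by
          have := mul_mem hg (inv_mem hh)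
          have e9 : (g, g') * (h, h')⁻¹ = (g * h⁻¹, γ) := by
            rw [← e7]
            ext1
            · rfl
            · simp
          rwa [e9] at this
        have hb0D : ∀ i, b0 i ∈ (X.A (X.src l)).D := fun i =>
          updE_D hH (hY.E_dom _ _ _ (hc i)) (hb0 i)
        have hem := hX.Φ_mem l hH.hl _ _ e8
        have hbb : ∀ i, b i = (X.A (X.src l)).act (g * h⁻¹) (b0 i) := by
          intro i
          have f1 : (updE X l x B y).E l (b i) (B.act γ (c i)) := by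
            have := hY.E_sym _ _ _ (h2 i)
            rwa [iv_iv] at this
          have f2 := hY.E_eqv l _ _ _ _ (hc i) (show (g * h⁻¹, γ) ∈ (updE X l x B y).Φ l from e8)
          have f3 : ((updE X l x B y).A ((updE X l x B y).src (iv l))).act γ (c i) =
              B.act γ (c i) := by
            change ((updA X (X.src (iv l)) B).A (X.src (iv l))).act γ (c i) = _
            rw [updA_self]
          rw [f3] at f2
          rw [E_inj hY f1 f2]
          exact hle.act_eq _ (hX.src_lt l hH.hl) _ hem _ (hb0D i)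
        refine ⟨fun i => ?_, .inl (X.src l, g * h⁻¹) :: w0, ⟨b0, hw0, fun i =>
          ⟨hX.src_lt l hH.hl, hem, hb0D i, hbb i⟩⟩, ?_⟩
        · rw [hbb i]
          exact hH.hN _ (hX.src_lt l hH.hl) _ ((X.A _).map_mem _ hem _ (hb0D i))
        · refine (hs.cons _).trans fun K _ f hf => ?_
          simp only [ev_cons]
          have r1 := hf.iv l
          have r2 := hf.rel l hH.hl _ _ e8
          have r2' : f (.inr l) * f (.inl (X.src l, g * h⁻¹)) =
            f (.inl (X.src (iv l), γ)) * f (.inr l) := r2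
          rw [r1, ← mul_assoc, ← mul_assoc, mul_assoc (f (.inr l))⁻¹, ← r2', ← mul_assoc,
            inv_mul_cancel, one_mul]

theorem cons2' (w : List (Letter k)) (a b : Fin k → U) (ha : ∀ i, a i ∉ N2 X l B y)
    (hb : ∀ i, b i ∉ N2 X l B y) (hp : Path (updE X l x B y) w a b) :
    ∃ w', Path X w' a b ∧ Sem (updE X l x B y) w w' := by
  rcases cons2 hX hH w a b ha hp with ⟨-, h⟩ | ⟨γ, hγ, b0, w0, c, -, -, hc, ⟨i0, hi0⟩, -, rfl⟩
  · exact h
  · exfalso
    refine hb i0 ?_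
    obtain ⟨h, h', hh, -, e⟩ := hi0
    refine ⟨γ * h', mul_mem hγ (Φ_mem' hX hH.hl hh), ?_⟩
    change B.act γ (c i0) = _
    rw [e, B.mul γ (by rw [hH.hB.c_eq]; exact hγ) h'
      (by rw [hH.hB.c_eq]; exact Φ_mem' hX hH.hl hh) y (ext_mem hH.hB hH.h1y)]

omit hX in
theorem inv2 (hI : Inv X) : Inv (updE X l x B y) := by
  have hX := hI.val
  have hle := updE_le hH
  have hY := updE_val hX hH
  have hcB : ∀ {γ}, γ ∈ S.T (X.A (X.src (iv l))).c → γ ∈ S.T B.c := fun h => by
    rw [hH.hB.c_eq]; exact h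
  have hcY : ∀ {γ}, γ ∈ S.T (X.A (X.src (iv l))).c →
      γ ∈ S.T ((updE X l x B y).A (X.src (iv l))).c := fun h => by
    rw [show ((updE X l x B y).A (X.src (iv l))).c = _ from updA_c hH.hB _]; exact h
  have htm : X.src (iv l) < X.m := hX.src_lt (iv l) hH.hl
  have hYself : (updE X l x B y).A (X.src (iv l)) = B := updA_self
  have hpers : ∀ {b : Fin k → U} {j : ℕ}, Root X b j → Root (updE X l x B y) b j := fun h =>
    h.persist hle hH.hN (cons2' hX hH)
  refine ⟨hY, fun j hj => ?_, fun b hb hbased => ?_⟩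
  · have := hpers (hI.I1 j hj)
    rwa [show ((updE X l x B y).A j).c = _ from updA_c hH.hB _]
  · by_cases hbo : ∀ i, b i ∉ N2 X l B y
    · obtain ⟨j, hj, hbD⟩ := hbased
      obtain ⟨w, b0, j0, hp, hr⟩ := hI.I3 b hb ⟨j, hj, fun i => updE_D hH (hbD i) (hbo i)⟩
      exact ⟨w, b0, j0, hle.path hp, hpers hr⟩
    · push Not at hbo
      obtain ⟨i0, hi0⟩ := hbo
      obtain ⟨j, hj, hbD⟩ := hbased
      have hjt : j = X.src (iv l) := updE_D' hH hj (hbD i0) hi0
      subst hjt
      have hbD' : ∀ i, b i ∈ B.D := fun i => by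
        have := hbD i
        rwa [hYself] at this
      by_cases hγ : ∃ γ ∈ S.T (X.A (X.src (iv l))).c, ∃ z : Fin k → U,
        ∀ i, (updE X l x B y).E l (z i) (B.act γ (b i))
      · obtain ⟨γ, hγ, z, hz⟩ := hγ
        have hzinj : Injective z := by
          intro i i' h
          have h1 := hz i
          rw [h] at h1
          exact hb (B.act_inj (hcB hγ) (hbD' i) (hbD' i') (hY.E_fn _ _ _ _ h1 (hz i')))
        have hzD : ∀ i, z i ∈ (X.A (X.src l)).D := by
          intro i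
          rcases hz i with h | ⟨-, h⟩ | ⟨h, -⟩
          · exact hX.E_dom _ _ _ h
          · exact new_dom hX hH h
          · exact absurd h.symm (iv_ne l)
        obtain ⟨w, b0, j0, hp, hr⟩ := hI.I3 z hzinj ⟨_, hX.src_lt l hH.hl, hzD⟩
        have hp2 : Path (updE X l x B y) [.inr (iv l), .inl (X.src (iv l), γ)] b z := by
          refine ⟨fun i => B.act γ (b i), path_single.2 fun i => ⟨hj, hcY hγ, hbD i, ?_⟩,
            fun i => ?_⟩
          · rw [hYself]
          · exact hY.E_sym _ _ _ (hz i)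
        exact ⟨w ++ [.inr (iv l), .inl (X.src (iv l), γ)], b0, j0,
          path_append.2 ⟨z, hp2, hle.path hp⟩, hpers hr⟩
      · push Not at hγ
        refine ⟨[], b, X.src (iv l), rfl, hj, hbD, fun w b' hp _ => ?_⟩
        have key : ∀ w b', Path (updE X l x B y) w b b' → ∃ γ ∈ S.T (X.A (X.src (iv l))).c,
            Sem (updE X l x B y) w [.inl (X.src (iv l), γ)] ∧ b' = fun i => B.act γ (b i) := by
          intro w
          induction w with
          | nil =>
            intro b' h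
            refine ⟨1, one_mem _, (Sem.one (X := updE X l x B y) hj []).symm, ?_⟩
            rw [← show b = b' from h]
            funext i
            rw [B.one _ (hbD' i)]
          | cons l' w ih =>
            intro b' h
            obtain ⟨b'', h1, h2⟩ := h
            obtain ⟨γ, hγ', hs, rfl⟩ := ih b'' h1
            have hfr : B.act γ (b i0) ∈ N2 X l B y := by
              obtain ⟨g, hg, e⟩ := hi0
              refine ⟨γ * g, mul_mem hγ' hg, ?_⟩
              rw [e, B.mul γ (hcB hγ') g (hcB hg) y (ext_mem hH.hB hH.h1y)]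
            rcases l' with ⟨j', δ⟩ | l'
            · obtain ⟨e1, e2, e3, -⟩ := h2 i0
              have hjj : j' = X.src (iv l) := updE_D' hH e1 e3 hfr
              subst hjj
              have hδ : δ ∈ S.T (X.A (X.src (iv l))).c := by
                rwa [show ((updE X l x B y).A (X.src (iv l))).c = _ from updA_c hH.hB _] at e2
              refine ⟨δ * γ, mul_mem hδ hγ', (hs.cons _).trans
                (Sem.mul (X := updE X l x B y) hj (hcY hδ) (hcY hγ') []), ?_⟩
              funext i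
              obtain ⟨-, -, -, e4⟩ := h2 i
              rw [hYself] at e4
              rw [e4, B.mul δ (hcB hδ) γ (hcB hγ') _ (hbD' i)]
            · exfalso
              obtain ⟨e1, -⟩ := edge_fresh hX hH (h2 i0) hfr
              subst e1
              obtain ⟨i1, hi1⟩ := hγ γ hγ' b'
              refine hi1 ?_
              have := hY.E_sym _ _ _ (h2 i1)
              rwa [iv_iv] at this
        obtain ⟨γ, hγ', hs, he⟩ := key w b' hp
        exact ⟨γ, hcY hγ', hs, by rw [he, hYself]⟩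

end E2

theorem stepE2 (hS : Good S) (X : Sys S) (hI : Inv X) {l : ℕ × Bool} (hl : l.1 < X.n) {x : U}
    (hx : x ∈ (X.A (X.src l)).D) :
    ∃ Y : Sys S, Inv Y ∧ Le X Y ∧ ∃ v, Y.E l x v := by
  classical
  by_cases hxE : ∃ v, X.E l x v
  · exact ⟨X, hI, Le.refl X, hxE⟩
  have hX := hI.val
  push Not at hxE
  set H : Subgroup (Equiv.Perm (Fin k)) := (X.Φ l).map (MonoidHom.fst _ _) with hH
  have hHmem : ∀ h : H, ∃ h', ((h : Equiv.Perm (Fin k)), h') ∈ X.Φ l := by
    rintro ⟨h, hh⟩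
    obtain ⟨⟨a, b⟩, hab, rfl⟩ := Subgroup.mem_map.1 hh
    exact ⟨b, hab⟩
  choose φ0 hφ0 using hHmem
  let φ : H →* Equiv.Perm (Fin k) :=
    { toFun := φ0
      map_one' := hX.Φ_inj l hl _ (hφ0 1)
      map_mul' := fun a b => Φ_fn hX hl (hφ0 (a * b)) (mul_mem (hφ0 a) (hφ0 b)) }
  have hφ : ∀ h : H, ((h : Equiv.Perm (Fin k)), φ h) ∈ X.Φ l := hφ0
  set R : Finset U := (X.A (X.src l)).D.filter (fun u => ∃ v, X.E l u v) with hR
  have hRmem : ∀ u, u ∈ R ↔ ∃ v, X.E l u v := by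
    intro u
    rw [hR, Finset.mem_filter]
    exact ⟨fun h => h.2, fun h => ⟨hX.E_dom _ _ _ h.choose_spec, h⟩⟩
  let τ : U → U := fun u => if h : ∃ v, X.E l u v then h.choose else u
  have hτ : ∀ u v, X.E l u v → τ u = v := by
    intro u v h
    have h' : ∃ v, X.E l u v := ⟨v, h⟩
    simp only [τ, dif_pos h']
    exact hX.E_fn _ _ _ _ h'.choose_spec h
  obtain ⟨B, y, hB, h1y, hF, hP⟩ := hS.ext2 (X.A (X.src l)) (X.A (X.src (iv l))) H φ
    (fun h hh => hX.Φ_mem l hl _ _ (hφ0 ⟨h, hh⟩)) (fun h => Φ_mem' hX hl (hφ h))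
    (by
      intro a b hab
      apply Subtype.ext
      have h1 := hφ a
      rw [hab] at h1
      exact Φ_fn' hX hl h1 (hφ b))
    R τ (by
      obtain ⟨u, v, h⟩ := hX.E_ne l hl
      exact ⟨u, (hRmem u).2 ⟨v, h⟩⟩)
    (Finset.filter_subset _ _)
    (by
      intro z hz
      obtain ⟨v, hv⟩ := (hRmem z).1 hz
      rw [hτ z v hv]
      exact E_dom' hX hv)
    (by
      intro z hz z' hz' h
      obtain ⟨v, hv⟩ := (hRmem z).1 hz
      obtain ⟨v', hv'⟩ := (hRmem z').1 hz'
      rw [hτ z v hv, hτ z' v' hv'] at h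
      subst h
      exact E_inj hX hv hv')
    (by
      intro h z hz
      obtain ⟨v, hv⟩ := (hRmem z).1 hz
      have h1 := hX.E_eqv l z v _ _ hv (hφ h)
      exact ⟨(hRmem _).2 ⟨_, h1⟩, by rw [hτ _ _ h1, hτ _ _ hv]⟩)
    (by
      refine S.mono _ _ ?_ (hX.E_P l)
      rintro p ⟨h1, h2⟩
      obtain ⟨v, hv⟩ := (hRmem _).1 h1
      rw [hτ _ _ hv] at h2
      rw [Set.mem_ofPred_eq, h2]
      exact hv)
    x hx (fun h => by
      obtain ⟨v, hv⟩ := (hRmem _).1 h
      exact hxE v hv)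
    (by
      intro h hfix
      by_contra hne
      obtain ⟨v, hv⟩ := hX.F l hl h _ (hφ h) (fun h1 => hne (Subtype.ext h1)) x hx hfix
      exact hxE v hv)
    (supp X)
  have hyp : Hyp X l x B y :=
    { hl := hl
      hB := hB
      h1y := h1y
      hN := by
        rintro j hj z hz ⟨γ, hγ, rfl⟩
        exact hF γ hγ (mem_supp hj hz)
      hx := hx
      hxE := hxE
      hP := by
        refine S.mono _ _ ?_ hP
        rintro p (h | ⟨h, h', hh, h1, h2⟩)
        · exact Or.inl ⟨(hRmem _).2 ⟨_, h⟩, (hτ _ _ h).symm⟩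
        · refine Or.inr ⟨⟨h, Subgroup.mem_map.2 ⟨(h, h'), hh, rfl⟩⟩, ?_⟩
          have e : φ ⟨h, Subgroup.mem_map.2 ⟨(h, h'), hh, rfl⟩⟩ = h' :=
            Φ_fn hX hl (hφ _) hh
          rw [e]
          exact Prod.ext h1 h2 }
  refine ⟨updE X l x B y, inv2 hyp hI, updE_le hyp, B.act 1 y, Or.inr (Or.inl ⟨rfl, 1, 1,
    one_mem _, ?_, rfl⟩)⟩
  rw [PAct.one _ _ hx]

end Pool.Agent.R654.SharpCore
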