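import Pool.Agent.R654.SharpCore3

/-!
# Core theorem on sharp actions, fourth part: activation of a type (helper891)
-/

set_option autoImplicit false

open Function

namespace Pool.Agent.R654.SharpCore

variable {U : Type} {k : ℕ} {S : Setup U k}

/-! ### The natural partial action on a tuple -/

open Classical in
/-- the natural action on a tuple -/
noncomputable def bact (c : Fin k → U) (γ : Equiv.Perm (Fin k)) (x : U) : U :=
  if h : ∃ i, c i = x then c (γ h.choose) else x

theorem bact_c {c : Fin k → U} (hc : Injective c) (γ : Equiv.Perm (Fin k)) (i : Fin k) :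
    bact c γ (c i) = c (γ i) := by
  have h : ∃ i', c i' = c i := ⟨i, rfl⟩
  unfold bact
  rw [dif_pos h, hc h.choose_spec]

open Classical in
/-- the natural partial action -/
noncomputable def basePAct (S : Setup U k) (c : Fin k → U) (hc : Injective c) : PAct S where
  c := c
  inj := hc
  D := Finset.univ.image c
  act := bact c
  c_mem m := Finset.mem_image_of_mem _ (Finset.mem_univ _)
  map_mem γ _ x hx := by
    obtain ⟨i, -, rfl⟩ := Finset.mem_image.1 hx
    rw [bact_c hc]
    exact Finset.mem_image_of_mem _ (Finset.mem_univ _)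
  one x hx := by
    obtain ⟨i, -, rfl⟩ := Finset.mem_image.1 hx
    rw [bact_c hc]
    rfl
  mul γ _ δ _ x hx := by
    obtain ⟨i, -, rfl⟩ := Finset.mem_image.1 hx
    rw [bact_c hc, bact_c hc, bact_c hc]
    rfl
  on_c γ _ m := bact_c hc γ m
  free γ _ _ x hx _ := by
    obtain ⟨i, -, rfl⟩ := Finset.mem_image.1 hx
    exact ⟨i, rfl⟩
  pres γ hγ := by
    refine S.mono _ _ ?_ (S.T_sub c hc γ hγ)
    rintro ⟨x, y⟩ ⟨hx, hy⟩
    obtain ⟨i, -, rfl⟩ := Finset.mem_image.1 hx
    refine ⟨i, ?_⟩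
    simp only at hy
    rw [hy, bact_c hc]
    rfl

/-! ### Activation -/

/-- add a partial action -/
def addT (X : Sys S) (A' : PAct S) : Sys S :=
  { X with m := X.m + 1, A := Function.update X.A X.m A' }

section addT

variable {X : Sys S} {A' : PAct S}

theorem addT_self : (addT X A').A X.m = A' := Function.update_self ..

theorem addT_lt {j : ℕ} (h : j < X.m) : (addT X A').A j = X.A j :=
  Function.update_of_ne h.ne ..

theorem addT_le : Le X (addT X A') where
  m_le := Nat.le_succ _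
  n_le := le_rfl
  c_eq j hj := by rw [addT_lt hj]
  D_sub j hj := by rw [addT_lt hj]
  act_eq j hj γ _ x _ := by rw [addT_lt hj]
  src_eq _ _ := rfl
  Φ_eq _ _ := rfl
  E_le _ _ _ h := h

theorem addT_val (hX : Val X)
    (h4 : ∀ j < X.m, ∀ ρ : Equiv.Perm (Fin k), ¬ S.P (tup (X.A j).c (A'.c ∘ ρ))) :
    Val (addT X A') where
  src_lt l hl := (hX.src_lt l hl).trans_le (Nat.le_succ _)
  E_act := hX.E_act
  E_dom l x y h := by
    change x ∈ ((addT X A').A (X.src l)).D
    rw [addT_lt (hX.src_lt l (hX.E_act _ _ _ h))]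
    exact hX.E_dom _ _ _ h
  E_sym := hX.E_sym
  E_fn := hX.E_fn
  E_P := hX.E_P
  E_ne := hX.E_ne
  Φ_sym := hX.Φ_sym
  Φ_mem l hl h h' hh := by
    change h ∈ S.T ((addT X A').A (X.src l)).c
    rw [addT_lt (hX.src_lt l hl)]
    exact hX.Φ_mem l hl h h' hh
  Φ_inj := hX.Φ_inj
  E_eqv l x y h h' hE hh := by
    have hl := hX.E_act _ _ _ hE
    change X.E l (((addT X A').A (X.src l)).act h x) (((addT X A').A (X.src (iv l))).act h' y)
    rw [addT_lt (hX.src_lt l hl), addT_lt (hX.src_lt (iv l) hl)]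
    exact hX.E_eqv l x y h h' hE hh
  F l hl h h' hh h1 z hz hfix := by
    change z ∈ ((addT X A').A (X.src l)).D at hz
    change ((addT X A').A (X.src l)).act h z = z at hfix
    rw [addT_lt (hX.src_lt l hl)] at hz hfix
    exact hX.F l hl h h' hh h1 z hz hfix
  I4 j hj j' hj' hne ρ hP := by
    rcases Nat.lt_succ_iff_lt_or_eq.1 hj with h | h
    · rcases Nat.lt_succ_iff_lt_or_eq.1 hj' with h' | h'
      · rw [addT_lt h, addT_lt h'] at hP
        exact hX.I4 j h j' h' hne ρ hP
      · subst h'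
        rw [addT_lt h, addT_self] at hP
        exact h4 j h ρ hP
    · subst h
      rcases Nat.lt_succ_iff_lt_or_eq.1 hj' with h' | h'
      · rw [addT_lt h', addT_self] at hP
        refine h4 j' h' ρ.symm ?_
        have h1 := S.tup_reindex (S.tup_symm hP) ρ.symm
        have h2 : ((X.A j').c ∘ ρ) ∘ ρ.symm = (X.A j').c := by ext i; simp
        rwa [h2] at h1
      · exact hne h'.symm

variable (hX : Val X)
include hX

theorem consA (hk : 0 < k) (hN : ∀ j < X.m, ∀ x ∈ (X.A j).D, x ∉ A'.D) (w : List (Letter k)) :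
    ∀ a b : Fin k → U, (∀ i, a i ∉ A'.D) → Path (addT X A') w a b →
      Path X w a b ∧ ∀ i, b i ∉ A'.D := by
  induction w with
  | nil =>
    intro a b ha h
    rw [← show a = b from h]
    exact ⟨rfl, ha⟩
  | cons l w ih =>
    intro a b ha h
    obtain ⟨b', h1, h2⟩ := h
    obtain ⟨h3, h4⟩ := ih a b' ha h1
    rcases l with ⟨j, δ⟩ | l
    · have hj : j < X.m := by
        rcases Nat.lt_succ_iff_lt_or_eq.1 (h2 ⟨0, hk⟩).1 with h | h
        · exact h
        · exfalso
          subst h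
          have := (h2 ⟨0, hk⟩).2.2.1
          rw [addT_self] at this
          exact h4 _ this
      have h5 : ∀ i, Rel X (.inl (j, δ)) (b' i) (b i) := by
        intro i
        obtain ⟨-, e2, e3, e4⟩ := h2 i
        rw [addT_lt hj] at e2 e3 e4
        exact ⟨hj, e2, e3, e4⟩
      refine ⟨⟨b', h3, h5⟩, fun i => ?_⟩
      obtain ⟨e1, e2, e3, e4⟩ := h5 i
      rw [e4]
      exact hN j e1 _ ((X.A j).map_mem _ e2 _ e3)
    · have h5 : ∀ i, X.E l (b' i) (b i) := h2
      refine ⟨⟨b', h3, h5⟩, fun i => ?_⟩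
      exact hN _ (hX.src_lt (iv l) (hX.E_act _ _ _ (hX.E_sym _ _ _ (h5 i)))) _ (E_dom' hX (h5 i))

omit hX in
theorem invA (hk : 0 < k) (hI : Inv X)
    (h4 : ∀ j < X.m, ∀ ρ : Equiv.Perm (Fin k), ¬ S.P (tup (X.A j).c (A'.c ∘ ρ)))
    (hN : ∀ j < X.m, ∀ x ∈ (X.A j).D, x ∉ A'.D) (hD : ∀ x ∈ A'.D, x ∈ Set.range A'.c) :
    Inv (addT X A') := by
  have hX := hI.val
  have hY := addT_val hX h4
  have hle : Le X (addT X A') := addT_le
  have hpers : ∀ {b : Fin k → U} {j : ℕ}, Root X b j → Root (addT X A') b j := fun h =>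
    h.persist (N := A'.D) hle (fun j hj x hx => hN j hj x hx)
      (fun w a b ha _ hp => ⟨w, (consA hX hk (fun j hj x hx => hN j hj x hx) w a b ha hp).1,
        Sem.refl _⟩)
  have hm : X.m < (addT X A').m := Nat.lt_succ_self _
  have hroot : Root (addT X A') A'.c X.m := by
    refine ⟨hm, fun i => by rw [addT_self]; exact A'.c_mem i, fun w b' hp _ => ?_⟩
    have key : ∀ w b', Path (addT X A') w A'.c b' → ∃ γ ∈ S.T A'.c,
        Sem (addT X A') w [.inl (X.m, γ)] ∧ b' = fun i => A'.act γ (A'.c i) := by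
      intro w
      induction w with
      | nil =>
        intro b' h
        refine ⟨1, one_mem _, (Sem.one hm []).symm, ?_⟩
        rw [← show A'.c = b' from h]
        funext i
        rw [A'.one _ (A'.c_mem i)]
      | cons l w ih =>
        intro b' h
        obtain ⟨b'', h1, h2⟩ := h
        obtain ⟨γ, hγ, hs, rfl⟩ := ih b'' h1
        have hfr : ∀ i, A'.act γ (A'.c i) ∈ A'.D := fun i => A'.map_mem _ hγ _ (A'.c_mem i)
        rcases l with ⟨j, δ⟩ | l
        · have hj : j = X.m := by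
            rcases Nat.lt_succ_iff_lt_or_eq.1 (h2 ⟨0, hk⟩).1 with h | h
            · exfalso
              have := (h2 ⟨0, hk⟩).2.2.1
              rw [addT_lt h] at this
              exact hN j h _ this (hfr _)
            · exact h
          subst hj
          have hδ : δ ∈ S.T A'.c := by
            have := (h2 ⟨0, hk⟩).2.1
            rwa [addT_self] at this
          refine ⟨δ * γ, mul_mem hδ hγ, (hs.cons _).trans (Sem.mul hm (by rw [addT_self]; exact hδ)
            (by rw [addT_self]; exact hγ) []), ?_⟩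
          funext i
          obtain ⟨-, -, -, e4⟩ := h2 i
          rw [addT_self] at e4
          rw [e4, A'.mul δ hδ γ hγ _ (A'.c_mem i)]
        · exfalso
          have e1 : X.E l (A'.act γ (A'.c ⟨0, hk⟩)) (b' ⟨0, hk⟩) := h2 ⟨0, hk⟩
          exact hN _ (hX.src_lt l (hX.E_act _ _ _ e1)) _ (hX.E_dom _ _ _ e1) (hfr _)
    obtain ⟨γ, hγ, hs, he⟩ := key w b' hp
    exact ⟨γ, by rw [addT_self]; exact hγ, hs, by rw [he, addT_self]⟩
  refine ⟨hY, fun j hj => ?_, fun b hb hbased => ?_⟩
  · rcases Nat.lt_succ_iff_lt_or_eq.1 hj with h | h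
    · rw [addT_lt h]
      exact hpers (hI.I1 j h)
    · subst h
      rw [addT_self]
      exact hroot
  · obtain ⟨j, hj, hbD⟩ := hbased
    rcases Nat.lt_succ_iff_lt_or_eq.1 hj with h | h
    · rw [addT_lt h] at hbD
      obtain ⟨w, b0, j0, hp, hr⟩ := hI.I3 b hb ⟨j, h, hbD⟩
      exact ⟨w, b0, j0, hle.path hp, hpers hr⟩
    · subst h
      rw [addT_self] at hbD
      obtain ⟨σ, rfl⟩ := exists_perm' A'.inj hb fun i => hD _ (hbD i)
      exact ⟨[], _, X.m, rfl, hroot.reindex σ⟩

end addT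

theorem stepA (hk : 0 < k) (hS : Good S) (X : Sys S) (hI : Inv X) {b : Fin k → U}
    (hb : Injective b) :
    ∃ Y : Sys S, Inv Y ∧ Le X Y ∧ ∃ j < Y.m, ∃ ρ : Equiv.Perm (Fin k),
      S.P (tup (Y.A j).c (b ∘ ρ)) := by
  classical
  by_cases hex : ∃ j < X.m, ∃ ρ : Equiv.Perm (Fin k), S.P (tup (X.A j).c (b ∘ ρ))
  · exact ⟨X, hI, Le.refl X, hex⟩
  push Not at hex
  obtain ⟨c, hc, hP, hF⟩ := hS.fresh b hb (supp X)
  have hD : ∀ x ∈ (basePAct S c hc).D, x ∈ Set.range c := by
    intro x hx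
    obtain ⟨i, -, rfl⟩ := Finset.mem_image.1 hx
    exact ⟨i, rfl⟩
  refine ⟨addT X (basePAct S c hc), invA hk hI ?_ ?_ hD, addT_le, X.m, Nat.lt_succ_self _, 1, ?_⟩
  · intro j hj ρ h
    exact hex j hj ρ (S.tup_trans h (S.tup_reindex (S.tup_symm hP) ρ))
  · intro j hj x hx hx'
    obtain ⟨i, rfl⟩ := hD x hx'
    exact hF i (mem_supp hj hx)
  · rw [addT_self]
    exact S.tup_symm hP

end Pool.Agent.R654.SharpCore
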