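import Pool.Agent.R654.SharpCore4

/-!
# Core theorem on sharp actions, fifth part: a new stable letter (helper891)
-/

set_option autoImplicit false

open Function

namespace Pool.Agent.R654.SharpCore

variable {U : Type} {k : ℕ} {S : Setup U k}

/-! ### Counting fixed points -/

theorem card_fix (σ : Equiv.Perm (Fin k)) :
    Nat.card {m : Fin k // σ m = m} = σ.supportᶜ.card := by
  rw [Nat.card_eq_fintype_card, Fintype.card_subtype]
  congr 1
  ext m
  simp

theorem PAct.pow_fix (A : PAct S) {h : Equiv.Perm (Fin k)} (hh : h ∈ S.T A.c) {z : U}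
    (hz : z ∈ A.D) (hfix : A.act h z = z) (n : ℕ) : A.act (h ^ n) z = z := by
  induction n with
  | zero => rw [pow_zero, A.one z hz]
  | succ n ih => rw [pow_succ, A.mul _ (pow_mem hh n) _ hh z hz, hfix, ih]

theorem PAct.pow_act (A : PAct S) {h σ : Equiv.Perm (Fin k)} (hh : h ∈ S.T A.c) {b : Fin k → U}
    (hb : ∀ m, b m ∈ A.D) (hσ : ∀ m, A.act h (b m) = b (σ m)) (n : ℕ) (m : Fin k) :
    A.act (h ^ n) (b m) = b ((σ ^ n) m) := by
  induction n generalizing m with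
  | zero => rw [pow_zero, pow_zero, A.one _ (hb m)]; rfl
  | succ n ih =>
    rw [pow_succ, A.mul _ (pow_mem hh n) _ hh _ (hb m), hσ, ih, pow_succ]
    rfl

/-- a fixed point of an element which permutes the tuple `b` lies in the tuple -/
theorem fix_mem (hS : Good S) (A : PAct S) {b : Fin k → U} (hb : Injective b)
    (hbD : ∀ m, b m ∈ A.D) {h σ : Equiv.Perm (Fin k)} (hh : h ∈ S.T A.c)
    (hσ : ∀ m, A.act h (b m) = b (σ m)) (h1 : h ≠ 1) {z : U} (hz : z ∈ A.D)
    (hfix : A.act h z = z) : ∃ m, b m = z := by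
  have ho : orderOf h ≠ 1 := fun e => h1 (orderOf_eq_one_iff.1 e)
  have ho0 : orderOf h ≠ 0 := (orderOf_pos h).ne'
  obtain ⟨r, hr, hrd⟩ := Nat.exists_prime_and_dvd ho
  set n := orderOf h / r with hn
  have hor : orderOf (h ^ n) = r := orderOf_pow_orderOf_div ho0 hrd
  have hgm : h ^ n ∈ S.T A.c := pow_mem hh n
  have hg1 : h ^ n ≠ 1 := by
    intro e
    rw [e, orderOf_one] at hor
    exact hr.one_lt.ne hor
  have hfix' : A.act (h ^ n) z = z := A.pow_fix hh hz hfix n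
  have hσ' : ∀ m, A.act (h ^ n) (b m) = b ((σ ^ n) m) := A.pow_act hh hbD hσ n
  have hfact : Fact r.Prime := ⟨hr⟩
  have e1 : (h ^ n) ^ r ^ 1 = 1 := by
    rw [pow_one, ← hor, pow_orderOf_eq_one]
  have e2 : (σ ^ n) ^ r ^ 1 = 1 := by
    ext m
    have h3 := A.pow_act hgm hbD hσ' (r ^ 1) m
    rw [e1, A.one _ (hbD m)] at h3
    rw [← hb h3]
    rfl
  have m1 := Equiv.Perm.card_compl_support_modEq e1
  have m2 := Equiv.Perm.card_compl_support_modEq e2
  rw [← card_fix] at m1 m2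
  have hlt := hS.prime A.c A.inj (h ^ n) hgm (by rw [hor]; exact hr)
  rw [hor] at hlt
  -- the map of fixed points
  have hmap : ∀ m : {m : Fin k // (σ ^ n) m = m}, ∃ i : {i : Fin k // (h ^ n) i = i},
      A.c i = b m := by
    rintro ⟨m, hm⟩
    have h4 : A.act (h ^ n) (b m) = b m := by rw [hσ', hm]
    obtain ⟨i, hi⟩ := A.free (h ^ n) hgm hg1 (b m) (hbD m) h4
    refine ⟨⟨i, ?_⟩, hi⟩
    apply A.inj
    rw [← A.on_c _ hgm, hi, h4]
  choose F hF using hmap
  have hFinj : Injective F := by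
    intro m m' he
    apply Subtype.ext
    apply hb
    rw [← hF, ← hF, he]
  have hle : Nat.card {m : Fin k // (σ ^ n) m = m} ≤ Nat.card {i : Fin k // (h ^ n) i = i} :=
    Nat.card_le_card_of_injective F hFinj
  have heq : Nat.card {m : Fin k // (σ ^ n) m = m} = Nat.card {i : Fin k // (h ^ n) i = i} :=
    Nat.ModEq.eq_of_lt_of_lt (m2.trans m1.symm) (hle.trans_lt hlt) hlt
  have hbij := hFinj.bijective_of_nat_card_le heq.ge
  obtain ⟨i, hi⟩ := A.free (h ^ n) hgm hg1 z hz hfix'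
  have hi' : (h ^ n) i = i := by
    apply A.inj
    rw [← A.on_c _ hgm, hi, hfix']
  obtain ⟨m, hm⟩ := hbij.2 ⟨i, hi'⟩
  refine ⟨m, ?_⟩
  rw [← hF m, hm]
  exact hi

/-! ### A new stable letter -/

/-- the partial isomorphism -/
def Psi (X : Sys S) (τ j0 : ℕ) (b : Fin k → U) (hb : ∀ m, b m ∈ (X.A j0).D) :
    Subgroup (Equiv.Perm (Fin k) × Equiv.Perm (Fin k)) where
  carrier := {p | p.1 ∈ S.T (X.A τ).c ∧ p.2 ∈ S.T (X.A j0).c ∧
    ∀ m, (X.A j0).act p.2 (b m) = b (p.1 m)}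
  one_mem' := ⟨one_mem _, one_mem _, fun m => PAct.one _ _ (hb m)⟩
  mul_mem' := by
    rintro ⟨p1, p2⟩ ⟨q1, q2⟩ ⟨h1, h2, h3⟩ ⟨h1', h2', h3'⟩
    refine ⟨mul_mem h1 h1', mul_mem h2 h2', fun m => ?_⟩
    change (X.A j0).act (p2 * q2) (b m) = b ((p1 * q1) m)
    rw [PAct.mul _ _ h2 _ h2' _ (hb m), h3', h3]
    rfl
  inv_mem' := by
    rintro ⟨p1, p2⟩ ⟨h1, h2, h3⟩
    refine ⟨inv_mem h1, inv_mem h2, fun m => ?_⟩
    change (X.A j0).act p2⁻¹ (b m) = b (p1⁻¹ m)
    have h4 := h3 (p1⁻¹ m)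
    simp only at h4
    have h5 : p1 (p1⁻¹ m) = m := by simp
    rw [h5] at h4
    rw [← h4]
    exact PAct.inv_act _ h2 (hb _)

/-- the new system -/
def addL (X : Sys S) (τ j0 : ℕ) (Ψ : Subgroup (Equiv.Perm (Fin k) × Equiv.Perm (Fin k)))
    (a b : Fin k → U) : Sys S where
  m := X.m
  A := X.A
  n := X.n + 1
  src l := if l.1 = X.n then (if l.2 then τ else j0) else X.src l
  Φ l := if l.1 = X.n then (if l.2 then Ψ else Ψ.comap MulEquiv.prodComm.toMonoidHom) else X.Φ l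
  E l x y := X.E l x y ∨ (l = (X.n, true) ∧ ∃ i, x = a i ∧ y = b i) ∨
    (l = (X.n, false) ∧ ∃ i, x = b i ∧ y = a i)

/-- the hypotheses -/
structure HypN (X : Sys S) (τ j0 : ℕ) (b : Fin k → U) : Prop where
  hτ : τ < X.m
  hroot : Root X b j0
  hb : Injective b
  hP : S.P (tup (X.A τ).c b)
  tw : ∀ h ∈ S.T (X.A j0).c, (∀ m, (X.A j0).act h (b m) ∈ Set.range b) →
    ∃ σ ∈ S.T (X.A τ).c, ∀ m, (X.A j0).act h (b m) = b (σ m)
  disc : ∀ w b', Path X w (X.A τ).c b' → Set.range b' ≠ Set.range b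

section addL

variable {X : Sys S} {τ j0 : ℕ} {b : Fin k → U}

/-- the new system of the hypotheses -/
def sysN (H : HypN X τ j0 b) : Sys S :=
  addL X τ j0 (Psi X τ j0 b H.hroot.2.1) (X.A τ).c b

variable (H : HypN X τ j0 b)

theorem srcN_t : (sysN H).src (X.n, true) = τ := by simp [sysN, addL]

theorem srcN_f : (sysN H).src (X.n, false) = j0 := by simp [sysN, addL]

theorem srcN_o {l : ℕ × Bool} (h : l.1 < X.n) : (sysN H).src l = X.src l := by
  simp [sysN, addL, h.ne]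

theorem ΦN_t : (sysN H).Φ (X.n, true) = Psi X τ j0 b H.hroot.2.1 := by simp [sysN, addL]

theorem ΦN_f {h h' : Equiv.Perm (Fin k)} : (h, h') ∈ (sysN H).Φ (X.n, false) ↔
    (h', h) ∈ Psi X τ j0 b H.hroot.2.1 := by
  simp [sysN, addL, Subgroup.mem_comap]

theorem ΦN_o {l : ℕ × Bool} (h : l.1 < X.n) : (sysN H).Φ l = X.Φ l := by
  simp [sysN, addL, h.ne]

theorem leN : Le X (sysN H) where
  m_le := le_rfl
  n_le := Nat.le_succ _
  c_eq _ _ := rfl
  D_sub _ _ := subset_rfl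
  act_eq _ _ _ _ _ _ := rfl
  src_eq _ hl := srcN_o H hl
  Φ_eq _ hl := ΦN_o H hl
  E_le _ _ _ h := Or.inl h

/-- letters of the new system -/
theorem letN {l : ℕ × Bool} (h : l.1 < (sysN H).n) :
    l.1 < X.n ∨ l = (X.n, true) ∨ l = (X.n, false) := by
  rcases Nat.lt_succ_iff_lt_or_eq.1 h with h | h
  · exact Or.inl h
  · right
    rcases l with ⟨i, c⟩
    simp only at h
    subst h
    cases c
    · exact Or.inr rfl
    · exact Or.inl rfl

theorem Psi_inj {h' : Equiv.Perm (Fin k)} (h : (1, h') ∈ Psi X τ j0 b H.hroot.2.1) : h' = 1 := by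
  obtain ⟨-, h2, h3⟩ := h
  simp only at h2 h3
  by_contra hne
  have h4 : ∀ m, b m ∈ Set.range (X.A j0).c := fun m =>
    (X.A j0).free h' h2 hne _ (H.hroot.2.1 m) (h3 m)
  obtain ⟨σ, hσ⟩ := exists_perm' (X.A j0).inj H.hb h4
  refine hne ((X.A j0).eq_one h2 fun m => ?_)
  have h5 : (X.A j0).c m = b (σ.symm m) := by rw [hσ]; simp
  rw [h5]
  exact h3 _

theorem Psi_inj' {h : Equiv.Perm (Fin k)} (hh : (h, 1) ∈ Psi X τ j0 b H.hroot.2.1) : h = 1 := by
  obtain ⟨-, -, h3⟩ := hh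
  simp only at h3
  ext m
  have h4 := h3 m
  rw [PAct.one _ _ (H.hroot.2.1 m)] at h4
  rw [← H.hb h4]
  rfl

variable (hX : Val X)
include hX

theorem valN (hk : 0 < k) (hS : Good S) : Val (sysN H) where
  src_lt l hl := by
    rcases letN H hl with h | rfl | rfl
    · rw [srcN_o H h]; exact hX.src_lt l h
    · rw [srcN_t]; exact H.hτ
    · rw [srcN_f]; exact H.hroot.1
  E_act := by
    rintro l x y (h | ⟨rfl, -⟩ | ⟨rfl, -⟩)
    · exact (hX.E_act _ _ _ h).trans (Nat.lt_succ_self _)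
    · exact Nat.lt_succ_self _
    · exact Nat.lt_succ_self _
  E_dom := by
    rintro l x y (h | ⟨rfl, i, rfl, -⟩ | ⟨rfl, i, rfl, -⟩)
    · rw [srcN_o H (hX.E_act _ _ _ h)]
      exact hX.E_dom _ _ _ h
    · rw [srcN_t]
      exact (X.A τ).c_mem i
    · rw [srcN_f]
      exact H.hroot.2.1 i
  E_sym := by
    rintro l x y (h | ⟨rfl, i, rfl, rfl⟩ | ⟨rfl, i, rfl, rfl⟩)
    · exact Or.inl (hX.E_sym _ _ _ h)
    · exact Or.inr (Or.inr ⟨rfl, i, rfl, rfl⟩)
    · exact Or.inr (Or.inl ⟨rfl, i, rfl, rfl⟩)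
  E_fn := by
    rintro l x y y' (h | ⟨e, i, h1, h2⟩ | ⟨e, i, h1, h2⟩) (h' | ⟨e', i', h1', h2'⟩ | ⟨e', i', h1', h2'⟩)
    · exact hX.E_fn _ _ _ _ h h'
    · subst e'; exact absurd (hX.E_act _ _ _ h) (lt_irrefl _)
    · subst e'; exact absurd (hX.E_act _ _ _ h) (lt_irrefl _)
    · subst e; exact absurd (hX.E_act _ _ _ h') (lt_irrefl _)
    · rw [h2, h2', (X.A τ).inj (h1.symm.trans h1')]
    · rw [e] at e'; simp at e'
    · subst e; exact absurd (hX.E_act _ _ _ h') (lt_irrefl _)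
    · rw [e] at e'; simp at e'
    · rw [h2, h2', H.hb (h1.symm.trans h1')]
  E_P := by
    intro l
    by_cases h1 : l = (X.n, true)
    · subst h1
      refine S.mono _ _ ?_ H.hP
      rintro ⟨p, q⟩ (h | ⟨-, i, h2, h3⟩ | ⟨h, -⟩)
      · exact absurd (hX.E_act _ _ _ h) (lt_irrefl _)
      · exact ⟨i, Prod.ext h2 h3⟩
      · simp at h
    · by_cases h2 : l = (X.n, false)
      · subst h2
        refine S.mono _ _ ?_ (S.tup_symm H.hP)
        rintro ⟨p, q⟩ (h | ⟨h, -⟩ | ⟨-, i, h2, h3⟩)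
        · exact absurd (hX.E_act _ _ _ h) (lt_irrefl _)
        · simp at h
        · exact ⟨i, Prod.ext h2 h3⟩
      · refine S.mono _ _ ?_ (hX.E_P l)
        rintro p (h | ⟨h, -⟩ | ⟨h, -⟩)
        · exact h
        · exact absurd h h1
        · exact absurd h h2
  E_ne := by
    intro l hl
    rcases letN H hl with h | rfl | rfl
    · obtain ⟨x, y, hxy⟩ := hX.E_ne l h
      exact ⟨x, y, Or.inl hxy⟩
    · exact ⟨_, _, Or.inr (Or.inl ⟨rfl, ⟨0, hk⟩, rfl, rfl⟩)⟩
    · exact ⟨_, _, Or.inr (Or.inr ⟨rfl, ⟨0, hk⟩, rfl, rfl⟩)⟩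
  Φ_sym := by
    intro l hl h h' hh
    rcases letN H hl with hl' | rfl | rfl
    · rw [ΦN_o H hl'] at hh
      rw [ΦN_o H (l := iv l) hl']
      exact hX.Φ_sym l hl' _ _ hh
    · rw [ΦN_t] at hh
      exact (ΦN_f H).2 hh
    · have := (ΦN_f H).1 hh
      change (h', h) ∈ (sysN H).Φ (X.n, true)
      rw [ΦN_t]
      exact this
  Φ_mem := by
    intro l hl h h' hh
    rcases letN H hl with hl' | rfl | rfl
    · rw [ΦN_o H hl'] at hh
      rw [srcN_o H hl']
      exact hX.Φ_mem l hl' _ _ hh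
    · rw [ΦN_t] at hh
      rw [srcN_t]
      exact hh.1
    · have := (ΦN_f H).1 hh
      rw [srcN_f]
      exact this.2.1
  Φ_inj := by
    intro l hl h' hh
    rcases letN H hl with hl' | rfl | rfl
    · rw [ΦN_o H hl'] at hh
      exact hX.Φ_inj l hl' _ hh
    · rw [ΦN_t] at hh
      exact Psi_inj H hh
    · exact Psi_inj' H ((ΦN_f H).1 hh)
  E_eqv := by
    rintro l x y h h' (hE | ⟨rfl, i, rfl, rfl⟩ | ⟨rfl, i, rfl, rfl⟩) hh
    · have hl := hX.E_act _ _ _ hE
      rw [ΦN_o H hl] at hh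
      rw [srcN_o H hl, srcN_o H (l := iv l) hl]
      exact Or.inl (hX.E_eqv l x y h h' hE hh)
    · rw [ΦN_t] at hh
      obtain ⟨h1, h2, h3⟩ := hh
      rw [srcN_t]
      change (sysN H).E (X.n, true) ((X.A τ).act h ((X.A τ).c i))
        ((X.A ((sysN H).src (X.n, false))).act h' (b i))
      rw [srcN_f]
      refine Or.inr (Or.inl ⟨rfl, h i, (X.A τ).on_c h h1 i, h3 i⟩)
    · obtain ⟨h1, h2, h3⟩ := (ΦN_f H).1 hh
      rw [srcN_f]
      change (sysN H).E (X.n, false) ((X.A j0).act h (b i))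
        ((X.A ((sysN H).src (X.n, true))).act h' ((X.A τ).c i))
      rw [srcN_t]
      exact Or.inr (Or.inr ⟨rfl, h' i, h3 i, (X.A τ).on_c h' h1 i⟩)
  F := by
    intro l hl h h' hh h1 z hz hfix
    rcases letN H hl with hl' | rfl | rfl
    · rw [ΦN_o H hl'] at hh
      rw [srcN_o H hl'] at hz hfix
      obtain ⟨y, hy⟩ := hX.F l hl' h h' hh h1 z hz hfix
      exact ⟨y, Or.inl hy⟩
    · rw [ΦN_t] at hh
      rw [srcN_t] at hz hfix
      obtain ⟨i, hi⟩ := (X.A τ).free h hh.1 h1 z hz hfix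
      exact ⟨b i, Or.inr (Or.inl ⟨rfl, i, hi.symm, rfl⟩)⟩
    · obtain ⟨h2, h3, h4⟩ := (ΦN_f H).1 hh
      rw [srcN_f] at hz hfix
      obtain ⟨i, hi⟩ := fix_mem hS (X.A j0) H.hb H.hroot.2.1 h3 h4 h1 hz hfix
      exact ⟨(X.A τ).c i, Or.inr (Or.inr ⟨rfl, i, hi.symm, rfl⟩)⟩
  I4 := hX.I4

/-- edges of a letter on an injective tuple -/
theorem edgeN {l : ℕ × Bool} {u v : Fin k → U} (hu : Injective u)
    (h : ∀ i, (sysN H).E l (u i) (v i)) :
    (∀ i, X.E l (u i) (v i)) ∨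
    (l = (X.n, true) ∧ ∃ σ : Equiv.Perm (Fin k), u = (X.A τ).c ∘ σ ∧ v = b ∘ σ) ∨
    (l = (X.n, false) ∧ ∃ σ : Equiv.Perm (Fin k), u = b ∘ σ ∧ v = (X.A τ).c ∘ σ) := by
  by_cases h1 : l = (X.n, true)
  · subst h1
    right; left
    refine ⟨rfl, ?_⟩
    have h2 : ∀ i, ∃ i', u i = (X.A τ).c i' ∧ v i = b i' := by
      intro i
      rcases h i with h | ⟨-, h⟩ | ⟨h, -⟩
      · exact absurd (hX.E_act _ _ _ h) (lt_irrefl _)
      · exact h
      · simp at h
    choose s hs hs' using h2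
    have hinj : Injective s := fun i i' e => hu (by rw [hs, hs, e])
    exact ⟨Equiv.ofBijective s (Finite.injective_iff_bijective.1 hinj), funext hs, funext hs'⟩
  · by_cases h2 : l = (X.n, false)
    · subst h2
      right; right
      refine ⟨rfl, ?_⟩
      have h2 : ∀ i, ∃ i', u i = b i' ∧ v i = (X.A τ).c i' := by
        intro i
        rcases h i with h | ⟨h, -⟩ | ⟨-, h⟩
        · exact absurd (hX.E_act _ _ _ h) (lt_irrefl _)
        · simp at h
        · exact h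
      choose s hs hs' using h2
      have hinj : Injective s := fun i i' e => hu (by rw [hs, hs, e])
      exact ⟨Equiv.ofBijective s (Finite.injective_iff_bijective.1 hinj), funext hs, funext hs'⟩
    · left
      intro i
      rcases h i with h | ⟨h, -⟩ | ⟨h, -⟩
      · exact h
      · exact absurd h h1
      · exact absurd h h2

theorem consN1 (w : List (Letter k)) {a : Fin k → U} (ha : Injective a)
    (h1 : ∀ w b', Path X w a b' → Set.range b' ≠ Set.range (X.A τ).c)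
    (h2 : ∀ w b', Path X w a b' → Set.range b' ≠ Set.range b) :
    ∀ b' : Fin k → U, Path (sysN H) w a b' → Path X w a b' := by
  induction w with
  | nil => exact fun b' h => h
  | cons l w ih =>
    rintro b' ⟨b'', h3, h4⟩
    have h5 := ih b'' h3
    refine ⟨b'', h5, ?_⟩
    rcases l with ⟨j, δ⟩ | l
    · exact h4
    · rcases edgeN H hX (path_inj hX ha h5) h4 with h | ⟨-, σ, h, -⟩ | ⟨-, σ, h, -⟩
      · exact h
      · exact absurd (by rw [h, range_comp_perm]) (h1 w b'' h5)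
      · exact absurd (by rw [h, range_comp_perm]) (h2 w b'' h5)

theorem consN2 (hI : Inv X) (hY : Val (sysN H)) (w : List (Letter k)) : ∀ b' : Fin k → U,
    Path (sysN H) w (X.A τ).c b' →
    (∃ w', Path X w' (X.A τ).c b' ∧ Sem (sysN H) w w') ∨
    ∃ θ ∈ S.T (X.A τ).c, ∃ w2, Path X w2 (b ∘ θ) b' ∧
      Sem (sysN H) w (w2 ++ [.inr (X.n, true), .inl (τ, θ)]) := by
  have hle := leN H
  have hτ' : τ < (sysN H).m := H.hτ
  induction w with
  | nil =>
    intro b' h
    exact Or.inl ⟨[], h, Sem.refl _⟩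
  | cons l w ih =>
    rintro b' ⟨b'', h3, h4⟩
    have hinj : Injective b'' := path_inj hY (X.A τ).inj h3
    rcases ih b'' h3 with ⟨w', hw', hs⟩ | ⟨θ, hθ, w2, hw2, hs⟩
    · rcases l with ⟨j, δ⟩ | l
      · exact Or.inl ⟨.inl (j, δ) :: w', ⟨b'', hw', h4⟩, hs.cons _⟩
      · rcases edgeN H hX hinj h4 with h | ⟨rfl, σ, h, h'⟩ | ⟨-, σ, h, -⟩
        · exact Or.inl ⟨.inr l :: w', ⟨b'', hw', h⟩, hs.cons _⟩
        · right
          obtain ⟨θ, hθ, hs', he⟩ := (hI.I1 τ H.hτ).2.2 w' b'' hw' (by rw [h, range_comp_perm])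
          have hθσ : σ = θ := by
            ext1 i
            apply (X.A τ).inj
            have e1 := congrFun (h.symm.trans he) i
            simp only [comp_apply] at e1
            rw [e1, (X.A τ).on_c θ hθ]
          subst hθσ
          refine ⟨σ, hθ, [], h'.symm, ?_⟩
          exact (hs.trans (hle.sem hs')).cons _
        · exfalso
          exact H.disc w' b'' hw' (by rw [h, range_comp_perm])
    · rcases l with ⟨j, δ⟩ | l
      · exact Or.inr ⟨θ, hθ, .inl (j, δ) :: w2, ⟨b'', hw2, h4⟩, hs.cons _⟩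
      · rcases edgeN H hX hinj h4 with h | ⟨-, σ, h, -⟩ | ⟨rfl, σ, h, h'⟩
        · exact Or.inr ⟨θ, hθ, .inr l :: w2, ⟨b'', hw2, h⟩, hs.cons _⟩
        · exfalso
          obtain ⟨w3, hw3⟩ := path_inv hX hw2
          rw [h] at hw3
          have h5 := path_reindex hw3 σ.symm
          have h6 : ((X.A τ).c ∘ σ) ∘ σ.symm = (X.A τ).c := by ext i; simp
          rw [h6] at h5
          refine H.disc w3 _ h5 ?_
          rw [range_comp_perm, range_comp_perm]
        · left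
          obtain ⟨γ, hγ, hs', he⟩ := (H.hroot.reindex θ).2.2 w2 b'' hw2 (by
            rw [h, range_comp_perm, range_comp_perm])
          -- `γ` stabilises the range of `b`
          have h5 : ∀ m, (X.A j0).act γ (b m) ∈ Set.range b := by
            intro m
            have e1 := congrFun (h.symm.trans he) (θ.symm m)
            simp only [comp_apply, Equiv.apply_symm_apply] at e1
            exact ⟨_, e1⟩
          obtain ⟨ρ, hρ, hρ'⟩ := H.tw γ hγ h5
          have hσ : σ = ρ * θ := by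
            ext1 i
            apply H.hb
            have e1 := congrFun (h.symm.trans he) i
            simp only [comp_apply] at e1
            rw [e1, hρ']
            rfl
          have hm : ρ * θ ∈ S.T (X.A τ).c := mul_mem hρ hθ
          refine ⟨[.inl (τ, ρ * θ)], path_single.2 fun i => ⟨H.hτ, hm, (X.A τ).c_mem i, ?_⟩, ?_⟩
          · rw [h', hσ]
            exact ((X.A τ).on_c _ hm i).symm
          · intro K _ f hf
            have e1 := hs K f hf
            have e2 := (hle.sem hs') K f hf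
            have e3 : (ρ, γ) ∈ (sysN H).Φ (X.n, true) := by
              rw [ΦN_t]
              exact ⟨hρ, hγ, hρ'⟩
            have e4 := hf.rel (X.n, true) (Nat.lt_succ_self _) _ _ e3
            rw [srcN_t] at e4
            change f (.inr (X.n, true)) * f (.inl (τ, ρ)) =
              f (.inl ((sysN H).src (X.n, false), γ)) * f (.inr (X.n, true)) at e4
            rw [srcN_f] at e4
            have e5 := hf.iv (X.n, true)
            change f (.inr (X.n, false)) = _ at e5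
            have e6 := hf.mul τ hτ' ρ hρ θ hθ
            simp only [ev_cons, ev_nil, ev_append, mul_one] at e1 e2 ⊢
            rw [e1, e2, e5, e6, ← mul_assoc, ← mul_assoc, mul_assoc (f (.inr (X.n, true)))⁻¹, ← e4,
              ← mul_assoc, inv_mul_cancel, one_mul]

theorem invN (hk : 0 < k) (hS : Good S) (hI : Inv X) : Inv (sysN H) := by
  have hle := leN H
  have hY := valN H hX hk hS
  have hrτ : Root (sysN H) (X.A τ).c τ := by
    refine ⟨H.hτ, fun i => (X.A τ).c_mem i, fun w b' hp hr => ?_⟩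
    rcases consN2 H hX hI hY w b' hp with ⟨w', hw', hs⟩ | ⟨θ, hθ, w2, hw2, -⟩
    · obtain ⟨γ, hγ, hs', he⟩ := (hI.I1 τ H.hτ).2.2 w' b' hw' hr
      exact ⟨γ, hγ, hs.trans (hle.sem hs'), he⟩
    · exfalso
      obtain ⟨σ, hσ⟩ := exists_perm (X.A τ).inj
        (path_inj hX (H.hb.comp θ.injective) hw2) hr
      obtain ⟨w3, hw3⟩ := path_inv hX hw2
      rw [hσ] at hw3
      have h5 := path_reindex hw3 σ.symm
      have h6 : ((X.A τ).c ∘ σ) ∘ σ.symm = (X.A τ).c := by ext i; simp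
      rw [h6] at h5
      refine H.disc w3 _ h5 ?_
      rw [range_comp_perm, range_comp_perm]
  have hpers : ∀ {a : Fin k → U} {j : ℕ}, Injective a →
      (∀ w b', Path X w a b' → Set.range b' ≠ Set.range (X.A τ).c) →
      (∀ w b', Path X w a b' → Set.range b' ≠ Set.range b) →
      Root X a j → Root (sysN H) a j := by
    rintro a j ha h1 h2 ⟨r1, r2, r3⟩
    refine ⟨r1, r2, fun w b' hp hr => ?_⟩
    obtain ⟨γ, hγ, hs, he⟩ := r3 w b' (consN1 H hX w ha h1 h2 b' hp) hr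
    exact ⟨γ, hγ, hle.sem hs, he⟩
  refine ⟨hY, fun j hj => ?_, fun b1 hb1 hbased => ?_⟩
  · by_cases hjτ : j = τ
    · subst hjτ
      exact hrτ
    · refine hpers (X.A j).inj ?_ ?_ (hI.I1 j hj)
      · intro w b' hp hr
        obtain ⟨ρ, rfl⟩ := exists_perm (X.A τ).inj (path_inj hX (X.A j).inj hp) hr
        exact hX.I4 j hj τ H.hτ hjτ ρ (path_P hX hp)
      · intro w b' hp hr
        obtain ⟨ρ, rfl⟩ := exists_perm H.hb (path_inj hX (X.A j).inj hp) hr
        exact hX.I4 j hj τ H.hτ hjτ ρ (S.tup_trans (path_P hX hp)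
          (S.tup_reindex (S.tup_symm H.hP) ρ))
  · obtain ⟨w, b2, j2, hp, hr⟩ := hI.I3 b1 hb1 hbased
    have hb2 : Injective b2 := path_inj hX hb1 hp
    by_cases hc1 : ∃ w' b', Path X w' b2 b' ∧ Set.range b' = Set.range (X.A τ).c
    · obtain ⟨w', b', hp', hr'⟩ := hc1
      obtain ⟨σ, rfl⟩ := exists_perm (X.A τ).inj (path_inj hX hb2 hp') hr'
      exact ⟨w' ++ w, _, τ, path_append.2 ⟨b2, hle.path hp, hle.path hp'⟩, hrτ.reindex σ⟩
    · by_cases hc2 : ∃ w' b', Path X w' b2 b' ∧ Set.range b' = Set.range b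
      · obtain ⟨w', b', hp', hr'⟩ := hc2
        obtain ⟨σ, rfl⟩ := exists_perm H.hb (path_inj hX hb2 hp') hr'
        refine ⟨.inr (X.n, false) :: (w' ++ w), (X.A τ).c ∘ σ, τ,
          ⟨b ∘ σ, path_append.2 ⟨b2, hle.path hp, hle.path hp'⟩, fun i => ?_⟩, hrτ.reindex σ⟩
        exact Or.inr (Or.inr ⟨rfl, σ i, rfl, rfl⟩)
      · push Not at hc1 hc2
        exact ⟨w, b2, j2, hle.path hp, hpers hb2 hc1 hc2 hr⟩

end addL

theorem stepN (hk : 0 < k) (hS : Good S) (X : Sys S) (hI : Inv X) {b1 : Fin k → U}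
    (hb1 : Injective b1) (hbased : Based X b1) {τ : ℕ} (hτ : τ < X.m)
    (hP : ∃ ρ : Equiv.Perm (Fin k), S.P (tup (X.A τ).c (b1 ∘ ρ))) :
    ∃ Y : Sys S, Inv Y ∧ Le X Y ∧ ∃ (w : List (Letter k)) (σ : Equiv.Perm (Fin k)),
      Path Y w (Y.A τ).c (b1 ∘ σ) := by
  have hX := hI.val
  by_cases hc : ∃ w b', Path X w (X.A τ).c b' ∧ Set.range b' = Set.range b1
  · obtain ⟨w, b', hp, hr⟩ := hc
    obtain ⟨σ, rfl⟩ := exists_perm hb1 (path_inj hX (X.A τ).inj hp) hr
    exact ⟨X, hI, Le.refl X, w, σ, hp⟩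
  push Not at hc
  obtain ⟨w, b0, j0, hp, hr⟩ := hI.I3 b1 hb1 hbased
  have hb0 : Injective b0 := path_inj hX hb1 hp
  obtain ⟨hj0, hb0D, hr3⟩ := hr
  -- the stabiliser
  let K : Subgroup (Equiv.Perm (Fin k)) :=
    { carrier := {h | h ∈ S.T (X.A j0).c ∧ ∀ m, (X.A j0).act h (b0 m) ∈ Set.range b0}
      one_mem' := ⟨one_mem _, fun m => ⟨m, (PAct.one _ _ (hb0D m)).symm⟩⟩
      mul_mem' := by
        rintro g h ⟨g1, g2⟩ ⟨h1, h2⟩
        refine ⟨mul_mem g1 h1, fun m => ?_⟩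
        rw [PAct.mul _ _ g1 _ h1 _ (hb0D m)]
        obtain ⟨m', hm'⟩ := h2 m
        rw [← hm']
        exact g2 m'
      inv_mem' := by
        rintro h ⟨h1, h2⟩
        refine ⟨inv_mem h1, fun m => ?_⟩
        obtain ⟨σ, hσ⟩ := exists_perm' (b := fun m => (X.A j0).act h (b0 m)) hb0
          (fun m m' e => hb0 ((X.A j0).act_inj h1 (hb0D m) (hb0D m') e)) h2
        have e1 := congrFun hσ (σ.symm m)
        simp only [comp_apply, Equiv.apply_symm_apply] at e1
        rw [← e1, PAct.inv_act _ h1 (hb0D _)]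
        exact ⟨_, rfl⟩ }
  obtain ⟨ρ0, hρ0⟩ := hP
  obtain ⟨ρ, hρ, htw⟩ := hS.twist (X.A j0) K (fun h hh => hh.1) b0 hb0 hb0D
    (fun h hh => hh.2) (X.A τ).c (X.A τ).inj
    ⟨ρ0, S.tup_trans hρ0 (S.tup_reindex (path_P hX hp) ρ0)⟩
  have H : HypN X τ j0 (b0 ∘ ρ) :=
    { hτ := hτ
      hroot := Root.reindex ⟨hj0, hb0D, hr3⟩ ρ
      hb := hb0.comp ρ.injective
      hP := hρ
      tw := by
        intro h hh hm
        have hK : h ∈ K := by
          refine ⟨hh, fun m => ?_⟩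
          have := hm (ρ.symm m)
          rw [range_comp_perm] at this
          simpa using this
        obtain ⟨σ, hσ, hσ'⟩ := htw h hK
        exact ⟨σ, hσ, hσ'⟩
      disc := by
        intro w' b' hp' hr'
        rw [range_comp_perm] at hr'
        obtain ⟨σ, rfl⟩ := exists_perm hb0 (path_inj hX (X.A τ).inj hp') hr'
        obtain ⟨w'', hw''⟩ := path_inv hX hp
        refine hc (w'' ++ w') (b1 ∘ σ) (path_append.2 ⟨_, hp', path_reindex hw'' σ⟩) ?_
        rw [range_comp_perm] }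
  obtain ⟨w'', hw''⟩ := path_inv hX hp
  refine ⟨sysN H, invN H hX hk hS hI, leN H, w'' ++ [.inr (X.n, true)], ρ,
    path_append.2 ⟨b0 ∘ ρ, path_single.2 fun i => ?_, (leN H).path (path_reindex hw'' ρ)⟩⟩
  exact Or.inr (Or.inl ⟨rfl, i, rfl, rfl⟩)

end Pool.Agent.R654.SharpCore
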